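import Mathlib

/-!
Additivity of the homological Euler characteristic in short exact sequences of chain complexes.
-/

open CategoryTheory

namespace Pool.Agent.Helper5.GC

abbrev Cplx := ChainComplex (ModuleCat.{0} ℚ) ℕ

def FinH (C : Cplx) : Prop :=
  (∀ n : ℕ, Module.Finite ℚ (C.homology n)) ∧
    ∃ N : ℕ, ∀ n : ℕ, N ≤ n → Subsingleton (C.homology n)

lemma chi_eq_sum (C : Cplx) (N : ℕ) (hN : ∀ n, N ≤ n → Subsingleton (C.homology n)) :
    C.homologyEulerChar = ∑ i ∈ Finset.range N, (-1 : ℤ) ^ i * Module.finrank ℚ (C.homology i) := by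
  rw [HomologicalComplex.homologyEulerChar_eq_sum_finSet_of_finrankSupport_subset C
    (Finset.range N)]
  · simp
  · intro i hi
    by_contra h
    simp only [Finset.coe_range, Set.mem_Iio, not_lt] at h
    have := hN i h
    exact hi (Module.finrank_zero_of_subsingleton)

/-- numeric lemma: exactness of a long sequence gives alternating sum identities. -/
lemma telescoping (a b c t : ℕ → ℤ) (N : ℕ)
    (h0 : b 0 = a 0 + c 0 - t 0)
    (hs : ∀ n, b (n + 1) = a (n + 1) + c (n + 1) - t (n + 1) - t n) :
    ∑ i ∈ Finset.range (N + 1), (-1 : ℤ) ^ i * b i =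
      ∑ i ∈ Finset.range (N + 1), (-1 : ℤ) ^ i * a i +
      ∑ i ∈ Finset.range (N + 1), (-1 : ℤ) ^ i * c i - (-1) ^ N * t N := by
  induction N with
  | zero => simp [h0]
  | succ N ih =>
    rw [Finset.sum_range_succ, ih, Finset.sum_range_succ _ (N + 1), Finset.sum_range_succ _ (N + 1),
      hs N]
    ring

lemma finrank_exact {A B C : ModuleCat.{0} ℚ} (f : A ⟶ B) (g : B ⟶ C)
    (w : f ≫ g = 0) (h : (ShortComplex.mk f g w).Exact) [Module.Finite ℚ B] :
    (Module.finrank ℚ B : ℤ) = Module.finrank ℚ (LinearMap.range f.hom) +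
      Module.finrank ℚ (LinearMap.range g.hom) := by
  have h1 := (ShortComplex.moduleCat_exact_iff_range_eq_ker _).1 h
  simp only at h1
  rw [h1, add_comm]
  exact_mod_cast (LinearMap.finrank_range_add_finrank_ker g.hom).symm

lemma finite_of_exact {A B C : ModuleCat.{0} ℚ} (f : A ⟶ B) (g : B ⟶ C)
    (w : f ≫ g = 0) (h : (ShortComplex.mk f g w).Exact) [Module.Finite ℚ A] [Module.Finite ℚ C] :
    Module.Finite ℚ B := by
  have h1 := (ShortComplex.moduleCat_exact_iff_range_eq_ker _).1 h
  simp only at h1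
  have : Module.Finite ℚ (LinearMap.ker g.hom) := by
    rw [← h1]; infer_instance
  have : Module.Finite ℚ (LinearMap.range g.hom) := inferInstance
  have : Module.Finite ℚ (B ⧸ LinearMap.ker g.hom) :=
    Module.Finite.equiv g.hom.quotKerEquivRange.symm
  exact Module.Finite.of_submodule_quotient (LinearMap.ker g.hom)

lemma subsingleton_of_exact {A B C : ModuleCat.{0} ℚ} (f : A ⟶ B) (g : B ⟶ C)
    (w : f ≫ g = 0) (h : (ShortComplex.mk f g w).Exact) [Subsingleton A] [Subsingleton C] :
    Subsingleton B := by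
  have h1 := (ShortComplex.moduleCat_exact_iff_range_eq_ker _).1 h
  simp only at h1
  constructor
  intro x y
  have hx : ∀ z : B, z = 0 := by
    intro z
    have : z ∈ LinearMap.ker g.hom := Subsingleton.elim _ _
    rw [← h1] at this
    obtain ⟨u, hu⟩ := this
    rw [← hu, Subsingleton.elim u 0, map_zero]
  rw [hx x, hx y]

theorem chi_additive (S : ShortComplex Cplx) (hS : S.ShortExact)
    (h1 : FinH S.X₁) (h2 : FinH S.X₂) :
    FinH S.X₃ ∧ S.X₃.homologyEulerChar = S.X₂.homologyEulerChar - S.X₁.homologyEulerChar := by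
  obtain ⟨f1, N1, z1⟩ := h1
  obtain ⟨f2, N2, z2⟩ := h2
  have hrel : ∀ n : ℕ, (ComplexShape.down ℕ).Rel (n + 1) n := fun n => by simp
  have hnot : ∀ j : ℕ, ¬ (ComplexShape.down ℕ).Rel 0 j := fun j => by simp
  have hepi0 : Epi (HomologicalComplex.homologyMap S.g 0) := by
    have := hS.epi_g
    have : Epi (S.g.f 0) := by
      have : Epi S.g := hS.epi_g
      infer_instance
    exact HomologicalComplex.epi_homologyMap_of_epi_of_not_rel _ _ hnot
  have hsurj0 : LinearMap.range (HomologicalComplex.homologyMap S.g 0).hom = ⊤ :=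
    LinearMap.range_eq_top.2 ((ModuleCat.epi_iff_surjective _).1 hepi0)
  have fin3 : ∀ n, Module.Finite ℚ (S.X₃.homology n) := by
    intro n
    cases n with
    | zero =>
      have := f2 0
      exact Module.Finite.of_surjective (HomologicalComplex.homologyMap S.g 0).hom
        (LinearMap.range_eq_top.1 hsurj0)
    | succ n =>
      have := f2 (n + 1)
      have := f1 n
      exact finite_of_exact _ _ _ (hS.homology_exact₃ (n + 1) n (hrel n))
  set N := max N1 N2 + 1 with hN
  have z3 : ∀ n, N ≤ n → Subsingleton (S.X₃.homology n) := by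
    intro n hn
    obtain ⟨m, rfl⟩ : ∃ m, n = m + 1 := ⟨n - 1, by omega⟩
    have := z2 (m + 1) (by have := le_max_right N1 N2; omega)
    have := z1 m (by have := le_max_left N1 N2; omega)
    exact subsingleton_of_exact _ _ _ (hS.homology_exact₃ (m + 1) m (hrel m))
  refine ⟨⟨fin3, N, z3⟩, ?_⟩
  let a : ℕ → ℤ := fun n => Module.finrank ℚ (S.X₁.homology n)
  let b : ℕ → ℤ := fun n => Module.finrank ℚ (S.X₂.homology n)
  let c : ℕ → ℤ := fun n => Module.finrank ℚ (S.X₃.homology n)
  let t : ℕ → ℤ := fun n => Module.finrank ℚ (LinearMap.range (hS.δ (n + 1) n (hrel n)).hom)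
  have ha : ∀ n, a n = t n + Module.finrank ℚ (LinearMap.range (HomologicalComplex.homologyMap S.f n).hom) := by
    intro n
    have := f1 n
    exact finrank_exact _ _ _ (hS.homology_exact₁ (n + 1) n (hrel n))
  have hb : ∀ n, b n = Module.finrank ℚ (LinearMap.range (HomologicalComplex.homologyMap S.f n).hom) +
      Module.finrank ℚ (LinearMap.range (HomologicalComplex.homologyMap S.g n).hom) := by
    intro n
    have := f2 n
    exact finrank_exact _ _ _ (hS.homology_exact₂ n)
  have hc : ∀ n, c (n + 1) = Module.finrank ℚ (LinearMap.range (HomologicalComplex.homologyMap S.g (n + 1)).hom) + t n := by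
    intro n
    have := fin3 (n + 1)
    exact finrank_exact _ _ _ (hS.homology_exact₃ (n + 1) n (hrel n))
  have hc0 : c 0 = Module.finrank ℚ (LinearMap.range (HomologicalComplex.homologyMap S.g 0).hom) := by
    rw [hsurj0, finrank_top]
  have key := telescoping a b c t N (by rw [hb, ha, hc0]; ring)
    (fun n => by rw [hb, ha, hc]; ring)
  have htN : t N = 0 := by
    have := z1 N (by have := le_max_left N1 N2; omega)
    have h : (Module.finrank ℚ (LinearMap.range (hS.δ (N + 1) N (hrel N)).hom)) = 0 :=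
      Module.finrank_zero_of_subsingleton
    simp only [t, h, Nat.cast_zero]
  rw [htN, mul_zero, sub_zero] at key
  rw [chi_eq_sum S.X₃ (N + 1) (fun n hn => z3 n (by omega)),
    chi_eq_sum S.X₂ (N + 1) (fun n hn => z2 n (by have := le_max_right N1 N2; omega)),
    chi_eq_sum S.X₁ (N + 1) (fun n hn => z1 n (by have := le_max_left N1 N2; omega))]
  simp only [a, b, c] at key
  linarith

lemma FinH.of_iso {C D : Cplx} (h : FinH C) (e : ∀ n, Nonempty (C.homology n ≅ D.homology n)) :
    FinH D ∧ D.homologyEulerChar = C.homologyEulerChar := by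
  obtain ⟨h1, N, h2⟩ := h
  have e' : ∀ n, Nonempty (C.homology n ≃ₗ[ℚ] D.homology n) := fun n =>
    ⟨(e n).some.toLinearEquiv⟩
  have h2' : ∀ n, N ≤ n → Subsingleton (D.homology n) := fun n hn => by
    have := h2 n hn
    exact (e' n).some.symm.toEquiv.subsingleton
  refine ⟨⟨fun n => ?_, N, h2'⟩, ?_⟩
  · have := h1 n
    exact Module.Finite.equiv (e' n).some
  · rw [chi_eq_sum D N h2', chi_eq_sum C N h2]
    refine Finset.sum_congr rfl fun i _ => ?_
    rw [(e' i).some.finrank_eq]

end Pool.Agent.Helper5.GC
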