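import Pool.Agent.Helper95.HomBasic
import Pool.Agent.Helper82.SmallDefs

/-!
Identification of Mathlib's singular chain complex with finitely supported functions on
continuous maps from standard simplices.
-/

open CategoryTheory Simplicial Pool.Agent.Helper82.Sing

namespace Pool.Agent.Helper5.GC

section sset

variable (S : SSet.{0})

noncomputable abbrev cc : ChainComplex (ModuleCat.{0} ℚ) ℕ := S.chainComplex (ModuleCat.of ℚ ℚ)

noncomputable def phi (n : ℕ) : (S _⦋n⦌ →₀ ℚ) →ₗ[ℚ] (cc S).X n :=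
  Finsupp.linearCombination ℚ (fun x => (S.ιChainComplex (R := ModuleCat.of ℚ ℚ) x).hom (1 : ℚ))

lemma phi_single (n : ℕ) (x : S _⦋n⦌) (a : ℚ) :
    phi S n (Finsupp.single x a) = (S.ιChainComplex (R := ModuleCat.of ℚ ℚ) x).hom a := by
  rw [phi, Finsupp.linearCombination_single, ← map_smul, smul_eq_mul, mul_one]

noncomputable def psi (n : ℕ) : (cc S).X n ⟶ ModuleCat.of ℚ (S _⦋n⦌ →₀ ℚ) :=
  Limits.Sigma.desc (fun x => ModuleCat.ofHom (Finsupp.lsingle x))

lemma iota_psi (n : ℕ) (x : S _⦋n⦌) :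
    S.ιChainComplex (R := ModuleCat.of ℚ ℚ) x ≫ psi S n = ModuleCat.ofHom (Finsupp.lsingle x) := by
  exact Limits.Sigma.ι_desc _ _

lemma psi_phi (n : ℕ) (c : S _⦋n⦌ →₀ ℚ) : (psi S n).hom (phi S n c) = c := by
  have : (psi S n).hom ∘ₗ (phi S n) = LinearMap.id := by
    ext x : 2
    rw [LinearMap.comp_apply, LinearMap.comp_apply, Finsupp.lsingle_apply, phi_single]
    have := iota_psi S n x
    have h2 := congrArg (fun f => f.hom (1 : ℚ)) this
    simpa using h2
  exact LinearMap.congr_fun this c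

lemma phi_psi (n : ℕ) (c : (cc S).X n) : phi S n ((psi S n).hom c) = c := by
  have : psi S n ≫ ModuleCat.ofHom (phi S n) = 𝟙 ((cc S).X n) := by
    apply SSet.chainComplex_hom_ext
    intro x
    rw [← Category.assoc, iota_psi]
    ext
    simp [phi_single]
  exact congrArg (fun f => f.hom c) this

noncomputable def Phi (n : ℕ) : (S _⦋n⦌ →₀ ℚ) ≃ₗ[ℚ] (cc S).X n :=
  LinearEquiv.ofLinearMap (phi S n) (psi S n).hom
    (LinearMap.ext (phi_psi S n)) (LinearMap.ext (psi_phi S n))

lemma Phi_apply (n : ℕ) (c) : Phi S n c = phi S n c := rfl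

lemma d_phi_single (n : ℕ) (x : S _⦋n + 1⦌) (a : ℚ) :
    ((cc S).d (n + 1) n).hom (phi S (n + 1) (Finsupp.single x a)) =
      ∑ i : Fin (n + 2), (-1 : ℚ) ^ (i : ℕ) • phi S n (Finsupp.single (S.δ i x) a) := by
  rw [phi_single]
  have h := SSet.ιChainComplex_d S (R := ModuleCat.of ℚ ℚ) x
  have h2 := congrArg (fun f => f.hom a) h
  simp only [ModuleCat.hom_comp, LinearMap.comp_apply] at h2
  rw [h2]
  simp only [ModuleCat.hom_sum, LinearMap.sum_apply, phi_single]
  refine Finset.sum_congr rfl fun i _ => ?_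
  rw [ModuleCat.hom_zsmul]
  simp only [LinearMap.smul_apply]
  norm_cast

end sset

section top

open AlgebraicTopology Pool.Agent.Helper95

variable (X : Type) [TopologicalSpace X]

noncomputable def eqv (n : ℕ) : Sx X n ≃ (TopCat.toSSet.obj (TopCat.of X)) _⦋n⦌ :=
  ((TopCat.of X).toSSetObjEquiv (Opposite.op ⦋n⦌)).symm

lemma eqv_face (n : ℕ) (σ : Sx X (n + 1)) (i : Fin (n + 2)) :
    (TopCat.toSSet.obj (TopCat.of X)).δ i (eqv X (n + 1) σ) = eqv X n (face σ i) := by
  rfl

noncomputable def Psi (n : ℕ) : (Sx X n →₀ ℚ) ≃ₗ[ℚ] (singularComplex X).X n :=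
  (Finsupp.domLCongr (eqv X n)).trans (Phi (TopCat.toSSet.obj (TopCat.of X)) n)

lemma Psi_single (n : ℕ) (σ : Sx X n) (a : ℚ) :
    Psi X n (Finsupp.single σ a) =
      phi (TopCat.toSSet.obj (TopCat.of X)) n (Finsupp.single (eqv X n σ) a) := by
  change phi _ n (Finsupp.domLCongr (eqv X n) (Finsupp.single σ a)) = _
  rw [Finsupp.domLCongr_single]

lemma d_Psi (n : ℕ) (c : Sx X (n + 1) →₀ ℚ) :
    ((singularComplex X).d (n + 1) n).hom (Psi X (n + 1) c) = Psi X n (bd X n c) := by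
  have : ((singularComplex X).d (n + 1) n).hom ∘ₗ (Psi X (n + 1)).toLinearMap =
      (Psi X n).toLinearMap ∘ₗ bd X n := by
    ext σ : 2
    simp only [LinearMap.comp_apply, Finsupp.lsingle_apply, LinearEquiv.coe_coe]
    rw [Psi_single]
    refine (d_phi_single _ n _ 1).trans ?_
    simp only [bd, Finsupp.linearCombination_single, one_smul, map_sum, map_smul]
    refine Finset.sum_congr rfl fun i _ => ?_
    rw [Psi_single, eqv_face]
    rfl
  exact LinearMap.congr_fun this c

variable {X} {Y : Type} [TopologicalSpace Y]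

lemma eqv_comp (f : C(Y, X)) (n : ℕ) (σ : Sx Y n) :
    ((TopCat.toSSet.map (TopCat.ofHom f)).app (Opposite.op ⦋n⦌)) (eqv Y n σ) =
      eqv X n (f.comp σ) := by
  rfl

noncomputable def push (f : C(Y, X)) (n : ℕ) : (Sx Y n →₀ ℚ) →ₗ[ℚ] (Sx X n →₀ ℚ) :=
  Finsupp.lmapDomain ℚ ℚ (fun σ => f.comp σ)

lemma singularMap_Psi (f : C(Y, X)) (n : ℕ) (c : Sx Y n →₀ ℚ) :
    ((singularMap f).f n).hom (Psi Y n c) = Psi X n (push f n c) := by
  have : ((singularMap f).f n).hom ∘ₗ (Psi Y n).toLinearMap =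
      (Psi X n).toLinearMap ∘ₗ push f n := by
    ext σ : 2
    simp only [LinearMap.comp_apply, Finsupp.lsingle_apply, LinearEquiv.coe_coe]
    rw [Psi_single, phi_single]
    have h := SSet.ι_chainComplexMap_f (f := TopCat.toSSet.map (TopCat.ofHom f))
      (R := ModuleCat.of ℚ ℚ) (x := eqv Y n σ)
    have h2 := congrArg (fun g => g.hom (1 : ℚ)) h
    simp only [ModuleCat.hom_comp, LinearMap.comp_apply] at h2
    refine h2.trans ?_
    rw [push, Finsupp.lmapDomain_apply, Finsupp.mapDomain_single, Psi_single, phi_single,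
      eqv_comp]
  exact LinearMap.congr_fun this c

end top

end Pool.Agent.Helper5.GC
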