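import Pool.Agent.Helper5.GC1

/-!
Subcomplexes, quotient complexes and products of complexes of rational vector spaces.
-/

open CategoryTheory

namespace Pool.Agent.Helper5.GC

/-- a family of submodules stable under the differential -/
structure SubFam (C : Cplx) where
  N : ∀ n, Submodule ℚ (C.X n)
  h : ∀ i j, ∀ x ∈ N i, (C.d i j).hom x ∈ N j

noncomputable def subC (C : Cplx) (F : SubFam C) : Cplx where
  X n := ModuleCat.of ℚ (F.N n)
  d i j := ModuleCat.ofHom ((C.d i j).hom.restrict (F.h i j))
  shape i j hij := by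
    ext x
    simp [C.shape i j hij]
  d_comp_d' i j k _ _ := by
    ext x
    exact congrArg (fun f => f.hom (x : C.X i)) (C.d_comp_d i j k)

noncomputable def subι (C : Cplx) (F : SubFam C) : subC C F ⟶ C where
  f n := ModuleCat.ofHom (F.N n).subtype
  comm' i j _ := by
    ext x
    rfl

noncomputable def quotC (C : Cplx) (F : SubFam C) : Cplx where
  X n := ModuleCat.of ℚ (C.X n ⧸ F.N n)
  d i j := ModuleCat.ofHom ((F.N i).mapQ (F.N j) (C.d i j).hom (F.h i j))
  shape i j hij := by
    ext x
    simp [C.shape i j hij]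
  d_comp_d' i j k _ _ := by
    ext x
    have := congrArg (fun f => f.hom (x : C.X i)) (C.d_comp_d i j k)
    simp only [ModuleCat.hom_comp, LinearMap.comp_apply] at this
    simp [this]

noncomputable def quotπ (C : Cplx) (F : SubFam C) : C ⟶ quotC C F where
  f n := ModuleCat.ofHom (F.N n).mkQ
  comm' i j _ := by
    ext x
    rfl

lemma shortExact_of_elts (S : ShortComplex Cplx)
    (hi : ∀ n, Function.Injective (S.f.f n).hom)
    (hs : ∀ n, Function.Surjective (S.g.f n).hom)
    (he : ∀ n, ∀ x, (S.g.f n).hom x = 0 → ∃ y, (S.f.f n).hom y = x) : S.ShortExact := by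
  apply HomologicalComplex.shortExact_of_degreewise_shortExact
  intro n
  have h1 : Mono (S.map (HomologicalComplex.eval (ModuleCat.{0} ℚ) (ComplexShape.down ℕ) n)).f :=
    (ModuleCat.mono_iff_injective _).2 (hi n)
  have h2 : Epi (S.map (HomologicalComplex.eval (ModuleCat.{0} ℚ) (ComplexShape.down ℕ) n)).g :=
    (ModuleCat.epi_iff_surjective _).2 (hs n)
  refine ShortComplex.ShortExact.mk ?_
  rw [ShortComplex.moduleCat_exact_iff]
  exact fun x hx => he n x hx

noncomputable def subSES (C : Cplx) (F : SubFam C) : ShortComplex Cplx :=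
  ShortComplex.mk (subι C F) (quotπ C F) (by
    ext n x
    exact (Submodule.Quotient.mk_eq_zero _).2 x.2)

lemma subSES_exact (C : Cplx) (F : SubFam C) : (subSES C F).ShortExact := by
  apply shortExact_of_elts
  · intro n
    exact Subtype.val_injective
  · intro n
    exact Submodule.mkQ_surjective _
  · intro n x hx
    exact ⟨⟨x, (Submodule.Quotient.mk_eq_zero _).1 hx⟩, rfl⟩

lemma inj_of_exact {A B C : ModuleCat.{0} ℚ} (f : A ⟶ B) (g : B ⟶ C)
    (w : f ≫ g = 0) (h : (ShortComplex.mk f g w).Exact) [Subsingleton A] :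
    Function.Injective g.hom := by
  have h1 := (ShortComplex.moduleCat_exact_iff_range_eq_ker _).1 h
  simp only at h1
  rw [← LinearMap.ker_eq_bot, ← h1, eq_bot_iff]
  rintro _ ⟨y, rfl⟩
  rw [Subsingleton.elim y 0, map_zero]
  exact Submodule.zero_mem _

lemma surj_of_exact {A B C : ModuleCat.{0} ℚ} (f : A ⟶ B) (g : B ⟶ C)
    (w : f ≫ g = 0) (h : (ShortComplex.mk f g w).Exact) [Subsingleton C] :
    Function.Surjective f.hom := by
  have h1 := (ShortComplex.moduleCat_exact_iff_range_eq_ker _).1 h
  simp only at h1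
  rw [← LinearMap.range_eq_top, h1, eq_top_iff]
  intro y _
  exact Subsingleton.elim _ _

/-- if every relative cycle is congruent to a boundary, the subcomplex has the same homology -/
theorem sub_same (C : Cplx) (F : SubFam C)
    (h0 : ∀ c : C.X 0, ∃ e : C.X 1, c - (C.d 1 0).hom e ∈ F.N 0)
    (h1 : ∀ n, ∀ c : C.X (n + 1), (C.d (n + 1) n).hom c ∈ F.N n →
      ∃ e : C.X (n + 2), c - (C.d (n + 2) (n + 1)).hom e ∈ F.N (n + 1)) (n : ℕ) :
    Nonempty ((subC C F).homology n ≅ C.homology n) := by
  have hz : ∀ n, Subsingleton ((quotC C F).homology n) := by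
    intro n
    apply ModuleCat.subsingleton_of_isZero
    rw [← HomologicalComplex.exactAt_iff_isZero_homology]
    cases n with
    | zero =>
      rw [HomologicalComplex.exactAt_iff' _ 1 0 0 (by simp) (by simp)]
      rw [ShortComplex.moduleCat_exact_iff]
      intro x _
      obtain ⟨c, rfl⟩ := Submodule.mkQ_surjective _ x
      obtain ⟨e, he⟩ := h0 c
      refine ⟨Submodule.Quotient.mk e, ?_⟩
      exact ((Submodule.Quotient.eq _).2 he).symm
    | succ n =>
      rw [HomologicalComplex.exactAt_iff' _ (n + 2) (n + 1) n (by simp) (by simp)]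
      rw [ShortComplex.moduleCat_exact_iff]
      intro x hx
      obtain ⟨c, rfl⟩ := Submodule.mkQ_surjective _ x
      obtain ⟨e, he⟩ := h1 n c ((Submodule.Quotient.mk_eq_zero _).1 hx)
      refine ⟨Submodule.Quotient.mk e, ?_⟩
      exact ((Submodule.Quotient.eq _).2 he).symm
  have hS := subSES_exact C F
  have hrel : ∀ n : ℕ, (ComplexShape.down ℕ).Rel (n + 1) n := fun n => by simp
  have hinj : Function.Injective (HomologicalComplex.homologyMap (subι C F) n).hom := by
    have := hz (n + 1)
    exact inj_of_exact (A := (quotC C F).homology (n + 1)) _ _ _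
      (hS.homology_exact₁ (n + 1) n (hrel n))
  have hsurj : Function.Surjective (HomologicalComplex.homologyMap (subι C F) n).hom := by
    have := hz n
    exact surj_of_exact (C := (quotC C F).homology n) _ _ _ (hS.homology_exact₂ n)
  exact ⟨(LinearEquiv.ofBijective _ ⟨hinj, hsurj⟩).toModuleIso⟩

/-- product of two complexes -/
noncomputable def prodC (A B : Cplx) : Cplx where
  X n := ModuleCat.of ℚ (A.X n × B.X n)
  d i j := ModuleCat.ofHom ((A.d i j).hom.prodMap (B.d i j).hom)
  shape i j hij := by
    ext x <;> simp [A.shape i j hij, B.shape i j hij]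
  d_comp_d' i j k _ _ := by
    refine ModuleCat.hom_ext (LinearMap.ext fun x => ?_)
    exact Prod.ext (congrArg (fun f => f.hom x.1) (A.d_comp_d i j k))
      (congrArg (fun f => f.hom x.2) (B.d_comp_d i j k))

noncomputable def pfst (A B : Cplx) : prodC A B ⟶ A where
  f n := ModuleCat.ofHom (LinearMap.fst ℚ _ _)
  comm' i j _ := by
    ext x
    rfl

noncomputable def psnd (A B : Cplx) : prodC A B ⟶ B where
  f n := ModuleCat.ofHom (LinearMap.snd ℚ _ _)
  comm' i j _ := by
    ext x
    rfl

noncomputable def pinl (A B : Cplx) : A ⟶ prodC A B where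
  f n := ModuleCat.ofHom (LinearMap.inl ℚ _ _)
  comm' i j _ := by
    ext x
    exact Prod.ext rfl (map_zero (B.d i j).hom)

noncomputable def pinr (A B : Cplx) : B ⟶ prodC A B where
  f n := ModuleCat.ofHom (LinearMap.inr ℚ _ _)
  comm' i j _ := by
    ext x
    exact Prod.ext (map_zero (A.d i j).hom) rfl

theorem prod_homology (A B : Cplx) (n : ℕ) :
    Nonempty ((prodC A B).homology n ≃ₗ[ℚ] (A.homology n × B.homology n)) := by
  open HomologicalComplex in
  have e1 : homologyMap (pinl A B) n ≫ homologyMap (pfst A B) n = 𝟙 _ := by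
    rw [← homologyMap_comp, ← homologyMap_id]
    congr 1
  have e2 : homologyMap (pinr A B) n ≫ homologyMap (psnd A B) n = 𝟙 _ := by
    rw [← homologyMap_comp, ← homologyMap_id]
    congr 1
  have e3 : homologyMap (pinl A B) n ≫ homologyMap (psnd A B) n = 0 := by
    rw [← homologyMap_comp, ← homologyMap_zero]
    congr 1
  have e4 : homologyMap (pinr A B) n ≫ homologyMap (pfst A B) n = 0 := by
    rw [← homologyMap_comp, ← homologyMap_zero]
    congr 1
  have e5 : homologyMap (pfst A B) n ≫ homologyMap (pinl A B) n +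
      homologyMap (psnd A B) n ≫ homologyMap (pinr A B) n = 𝟙 _ := by
    rw [← homologyMap_comp, ← homologyMap_comp, ← homologyMap_add, ← homologyMap_id]
    congr 1
    ext m x
    exact Prod.ext (add_zero (x : A.X m × B.X m).1) (zero_add (x : A.X m × B.X m).2)
  have f1 := fun x => congrArg (fun f => f.hom x) e1
  have f2 := fun x => congrArg (fun f => f.hom x) e2
  have f3 := fun x => congrArg (fun f => f.hom x) e3
  have f4 := fun x => congrArg (fun f => f.hom x) e4
  have f5 := fun x => congrArg (fun f => f.hom x) e5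
  simp only [ModuleCat.hom_comp, LinearMap.comp_apply, ModuleCat.hom_add, LinearMap.add_apply,
    ModuleCat.hom_zero, LinearMap.zero_apply, ModuleCat.hom_id, LinearMap.id_apply] at f1 f2 f3 f4 f5
  exact ⟨LinearEquiv.ofLinearMap
    ((HomologicalComplex.homologyMap (pfst A B) n).hom.prod
      (HomologicalComplex.homologyMap (psnd A B) n).hom)
    ((HomologicalComplex.homologyMap (pinl A B) n).hom.coprod
      (HomologicalComplex.homologyMap (pinr A B) n).hom)
    (LinearMap.ext fun x => by
      apply Prod.ext
      · simp [f1, f4]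
      · simp [f2, f3])
    (LinearMap.ext fun x => by simp [f5])⟩

theorem prod_chi (A B : Cplx) (hA : FinH A) (hB : FinH B) :
    FinH (prodC A B) ∧
      (prodC A B).homologyEulerChar = A.homologyEulerChar + B.homologyEulerChar := by
  obtain ⟨a1, N1, z1⟩ := hA
  obtain ⟨b1, N2, z2⟩ := hB
  have z3 : ∀ n, max N1 N2 ≤ n → Subsingleton ((prodC A B).homology n) := by
    intro n hn
    have := z1 n (le_trans (le_max_left _ _) hn)
    have := z2 n (le_trans (le_max_right _ _) hn)
    exact (prod_homology A B n).some.toEquiv.subsingleton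
  refine ⟨⟨fun n => ?_, max N1 N2, z3⟩, ?_⟩
  · have := a1 n
    have := b1 n
    exact Module.Finite.equiv (prod_homology A B n).some.symm
  · rw [chi_eq_sum _ _ z3, chi_eq_sum A (max N1 N2) (fun n hn => z1 n (le_trans (le_max_left _ _) hn)),
      chi_eq_sum B (max N1 N2) (fun n hn => z2 n (le_trans (le_max_right _ _) hn)),
      ← Finset.sum_add_distrib]
    refine Finset.sum_congr rfl fun n _ => ?_
    have := a1 n
    have := b1 n
    rw [(prod_homology A B n).some.finrank_eq, Module.finrank_prod]
    push_cast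
    ring

end Pool.Agent.Helper5.GC
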