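import Pool.Agent.Helper5.GC3

/-!
The algebraic Mayer-Vietoris argument.
-/

open CategoryTheory

namespace Pool.Agent.Helper5.GC

variable {A B C D : Cplx}

noncomputable def pairC (a : D ⟶ A) (b : D ⟶ B) : D ⟶ prodC A B where
  f n := ModuleCat.ofHom ((a.f n).hom.prod (b.f n).hom)
  comm' i j _ := by
    refine ModuleCat.hom_ext (LinearMap.ext fun x => ?_)
    exact Prod.ext (congrArg (fun f => f.hom x) (a.comm i j))
      (congrArg (fun f => f.hom x) (b.comm i j))

noncomputable def diffC (i : A ⟶ C) (j : B ⟶ C) (F : SubFam C)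
    (hi : ∀ n x, (i.f n).hom x ∈ F.N n) (hj : ∀ n x, (j.f n).hom x ∈ F.N n) :
    prodC A B ⟶ subC C F where
  f n := ModuleCat.ofHom (((i.f n).hom.coprod (-(j.f n).hom)).codRestrict (F.N n) (fun x => by
    simp only [LinearMap.coprod_apply, LinearMap.neg_apply]
    exact Submodule.add_mem _ (hi _ _) (Submodule.neg_mem _ (hj _ _))))
  comm' k l _ := by
    refine ModuleCat.hom_ext (LinearMap.ext fun x => ?_)
    have h1 := congrArg (fun f => f.hom (x : A.X k × B.X k).1) (i.comm k l)
    have h2 := congrArg (fun f => f.hom (x : A.X k × B.X k).2) (j.comm k l)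
    simp only [ModuleCat.hom_comp, LinearMap.comp_apply] at h1 h2
    apply Subtype.ext
    change (C.d k l).hom ((i.f k).hom (x : A.X k × B.X k).1 + (-(j.f k).hom (x : A.X k × B.X k).2)) =
      (i.f l).hom ((A.d k l).hom (x : A.X k × B.X k).1) +
        (-(j.f l).hom ((B.d k l).hom (x : A.X k × B.X k).2))
    rw [map_add, map_neg, h1, h2]

theorem mv_alg (a : D ⟶ A) (b : D ⟶ B) (i : A ⟶ C) (j : B ⟶ C) (hab : a ≫ i = b ≫ j)
    (F : SubFam C) (ii : ∀ n, Function.Injective (i.f n).hom)
    (ij : ∀ n, Function.Injective (j.f n).hom) (ia : ∀ n, Function.Injective (a.f n).hom)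
    (hF : ∀ n, F.N n = LinearMap.range (i.f n).hom ⊔ LinearMap.range (j.f n).hom)
    (hI : ∀ n x y, (i.f n).hom x = (j.f n).hom y → ∃ z, (i.f n).hom ((a.f n).hom z) = (i.f n).hom x)
    (fD : FinH D) (fA : FinH A) (fB : FinH B) :
    FinH (subC C F) ∧ (subC C F).homologyEulerChar =
      A.homologyEulerChar + B.homologyEulerChar - D.homologyEulerChar := by
  have hi : ∀ n x, (i.f n).hom x ∈ F.N n := fun n x => by
    rw [hF]
    exact Submodule.mem_sup_left ⟨x, rfl⟩
  have hj : ∀ n x, (j.f n).hom x ∈ F.N n := fun n x => by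
    rw [hF]
    exact Submodule.mem_sup_right ⟨x, rfl⟩
  have hab' : ∀ n z, (i.f n).hom ((a.f n).hom z) = (j.f n).hom ((b.f n).hom z) := fun n z => by
    have := congrArg (fun f => (f.f n).hom z) hab
    simpa using this
  let S : ShortComplex Cplx := ShortComplex.mk (pairC a b) (diffC i j F hi hj) (by
    ext n : 1
    refine ModuleCat.hom_ext (LinearMap.ext fun z => ?_)
    apply Subtype.ext
    change (i.f n).hom ((a.f n).hom z) + (-(j.f n).hom ((b.f n).hom z)) = 0
    rw [hab', add_neg_cancel])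
  have hS : S.ShortExact := by
    apply shortExact_of_elts
    · intro n x y hxy
      exact ia n (congrArg Prod.fst hxy)
    · intro n y
      have hy : (y : F.N n).1 ∈ LinearMap.range (i.f n).hom ⊔ LinearMap.range (j.f n).hom :=
        (hF n).le y.2
      rw [Submodule.mem_sup] at hy
      obtain ⟨_, ⟨u, rfl⟩, _, ⟨v, rfl⟩, huv⟩ := hy
      refine ⟨((u, -v) : A.X n × B.X n), ?_⟩
      apply Subtype.ext
      refine Eq.trans ?_ huv
      change (i.f n).hom u + (-(j.f n).hom (-v)) = _
      rw [map_neg, neg_neg]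
    · intro n x hx
      have hx' := congrArg Subtype.val hx
      change (i.f n).hom (x : A.X n × B.X n).1 + (-(j.f n).hom (x : A.X n × B.X n).2) = 0 at hx'
      have hx2 : (i.f n).hom (x : A.X n × B.X n).1 = (j.f n).hom (x : A.X n × B.X n).2 := by
        rw [← sub_eq_zero, sub_eq_add_neg]
        exact hx'
      obtain ⟨z, hz⟩ := hI n _ _ hx2
      refine ⟨z, ?_⟩
      refine Prod.ext (ii n hz) (ij n ?_)
      rw [← hx2, ← hz]
      exact (hab' n z).symm
  obtain ⟨f2, c2⟩ := prod_chi A B fA fB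
  obtain ⟨f3, c3⟩ := chi_additive S hS fD f2
  refine ⟨f3, ?_⟩
  rw [← c2]
  exact c3

end Pool.Agent.Helper5.GC
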