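import Pool.Agent.Helper5.GC2
import Pool.Agent.Helper5.GC4
import Pool.Agent.Helper82.Sing.Main
import Pool.Agent.Helper95.GoodCover

/-!
Additivity of the Euler characteristic for two open sets.
-/

open CategoryTheory Pool.Agent.Helper82.Sing Pool.Agent.Helper95

namespace Pool.Agent.Helper5.GC

variable {X : Type} [TopologicalSpace X]

/-- the inclusion of a subset -/
def incl (U : Set X) : C(↥U, X) := ⟨Subtype.val, continuous_subtype_val⟩

/-- the inclusion of a smaller subset in a larger one -/
def incl' {U V : Set X} (h : U ⊆ V) : C(↥U, ↥V) := ⟨Set.inclusion h, continuous_inclusion h⟩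

lemma incl_comp {U V : Set X} (h : U ⊆ V) : (incl V).comp (incl' h) = incl U := rfl

/-- simplices in a subset -/
def inS (U : Set X) (n : ℕ) : Set (Sx X n) := {σ | Set.range σ ⊆ U}

lemma push_injective {Y : Type} [TopologicalSpace Y] (f : C(Y, X)) (hf : Function.Injective f)
    (n : ℕ) : Function.Injective (push f n) := by
  apply Finsupp.mapDomain_injective
  intro σ τ h
  ext t
  exact hf (congrArg (fun g : Sx X n => g t) h)

lemma range_comp_incl (U : Set X) (n : ℕ) :
    Set.range (fun σ : Sx ↥U n => (incl U).comp σ) = inS U n := by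
  ext σ
  constructor
  · rintro ⟨τ, rfl⟩
    rintro _ ⟨t, rfl⟩
    exact (τ t).2
  · intro h
    refine ⟨⟨fun t => ⟨σ t, h ⟨t, rfl⟩⟩, by
      exact Continuous.subtype_mk σ.continuous _⟩, ?_⟩
    ext t
    rfl

lemma range_push (U : Set X) (n : ℕ) :
    LinearMap.range (push (incl U) n) = Finsupp.supported ℚ ℚ (inS U n) := by
  rw [← Submodule.map_top, ← Finsupp.supported_univ, push, Finsupp.lmapDomain_supported,
    Set.image_univ, range_comp_incl]

lemma sMap_injective {Y : Type} [TopologicalSpace Y] (f : C(Y, X)) (hf : Function.Injective f)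
    (n : ℕ) : Function.Injective ((singularMap f).f n).hom := by
  intro x y h
  obtain ⟨c, rfl⟩ := (Psi Y n).surjective x
  obtain ⟨c', rfl⟩ := (Psi Y n).surjective y
  rw [singularMap_Psi, singularMap_Psi] at h
  rw [push_injective f hf n ((Psi X n).injective h)]

lemma sMap_range (U : Set X) (n : ℕ) :
    LinearMap.range ((singularMap (incl U)).f n).hom =
      (Finsupp.supported ℚ ℚ (inS U n)).map (Psi X n).toLinearMap := by
  rw [← range_push]
  ext x
  constructor
  · rintro ⟨y, rfl⟩
    obtain ⟨c, rfl⟩ := (Psi ↥U n).surjective y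
    rw [singularMap_Psi]
    exact ⟨_, ⟨c, rfl⟩, rfl⟩
  · rintro ⟨_, ⟨c, rfl⟩, rfl⟩
    exact ⟨Psi ↥U n c, singularMap_Psi _ _ _⟩

lemma face_range {n : ℕ} (σ : Sx X (n + 1)) (i : Fin (n + 2)) :
    Set.range (face σ i) ⊆ Set.range σ := by
  rintro _ ⟨t, rfl⟩
  exact ⟨_, rfl⟩

lemma bd_small (U V : Set X) (n : ℕ) (c : Sx X (n + 1) →₀ ℚ)
    (hc : c ∈ Finsupp.supported ℚ ℚ (small U V (n + 1))) :
    bd X n c ∈ Finsupp.supported ℚ ℚ (small U V n) := by
  have : Finsupp.supported ℚ ℚ (small U V (n + 1)) ≤
      (Finsupp.supported ℚ ℚ (small U V n)).comap (bd X n) := by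
    rw [Finsupp.supported_eq_span_single, Submodule.span_le]
    rintro _ ⟨σ, hσ, rfl⟩
    rw [SetLike.mem_coe, Submodule.mem_comap, bd_single]
    refine Submodule.sum_mem _ fun i _ => Submodule.smul_mem _ _ ?_
    apply Finsupp.single_mem_supported
    rcases hσ with h | h
    · exact Or.inl ((face_range σ i).trans h)
    · exact Or.inr ((face_range σ i).trans h)
  exact this hc

noncomputable def smallFam (U V : Set X) : SubFam (singularComplex X) where
  N n := (Finsupp.supported ℚ ℚ (small U V n)).map (Psi X n).toLinearMap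
  h i j := by
    rintro _ ⟨c, hc, rfl⟩
    by_cases hij : j + 1 = i
    · subst hij
      refine ⟨bd X j c, bd_small U V j c hc, ?_⟩
      exact (d_Psi X j c).symm
    · rw [(singularComplex X).shape i j (by simpa using hij)]
      exact Submodule.zero_mem _

theorem small_same {U V : Set X} (hU : IsOpen U) (hV : IsOpen V) (h : U ∪ V = Set.univ) (n : ℕ) :
    Nonempty ((subC (singularComplex X) (smallFam U V)).homology n ≅
      (singularComplex X).homology n) := by
  apply sub_same
  · intro c
    obtain ⟨c, rfl⟩ := (Psi X 0).surjective c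
    obtain ⟨e, he⟩ := small_simplices_zero hU hV h c
    refine ⟨Psi X 1 e, c - bd X 0 e, he, ?_⟩
    change Psi X 0 (c - bd X 0 e) = _
    rw [map_sub]
    congr 1
    exact (d_Psi X 0 e).symm
  · intro n c hc
    obtain ⟨c, rfl⟩ := (Psi X (n + 1)).surjective c
    have hc' : bd X n c ∈ Finsupp.supported ℚ ℚ (small U V n) := by
      obtain ⟨b, hb, hb'⟩ := hc
      have : Psi X n b = Psi X n (bd X n c) := by
        refine Eq.trans hb' ?_
        exact d_Psi X n c
      rw [← (Psi X n).injective this]
      exact hb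
    obtain ⟨e, he⟩ := small_simplices hU hV h n c hc'
    refine ⟨Psi X (n + 2) e, c - bd X (n + 1) e, he, ?_⟩
    change Psi X (n + 1) (c - bd X (n + 1) e) = _
    rw [map_sub]
    congr 1
    exact (d_Psi X (n + 1) e).symm

/-- Mayer-Vietoris: additivity of the Euler characteristic. -/
theorem mvStatement : MVStatement := by
  intro X _ U V hU hV h fU fV fUV
  have key := mv_alg (singularMap (incl' (Set.inter_subset_left : U ∩ V ⊆ U)))
    (singularMap (incl' (Set.inter_subset_right : U ∩ V ⊆ V)))
    (singularMap (incl U)) (singularMap (incl V))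
    (by rw [← singularMap_comp, ← singularMap_comp, incl_comp, incl_comp])
    (smallFam U V)
    (fun n => sMap_injective _ Subtype.val_injective n)
    (fun n => sMap_injective _ Subtype.val_injective n)
    (fun n => sMap_injective _
      (Set.inclusion_injective (Set.inter_subset_left : U ∩ V ⊆ U)) n)
    (fun n => by
      rw [sMap_range, sMap_range, ← Submodule.map_sup, ← Finsupp.supported_union]
      rfl)
    (fun n x y hxy => by
      have h1 : ((singularMap (incl U)).f n).hom x ∈
          (Finsupp.supported ℚ ℚ (inS U n)).map (Psi X n).toLinearMap := by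
        rw [← sMap_range]; exact ⟨x, rfl⟩
      have h2 : ((singularMap (incl U)).f n).hom x ∈
          (Finsupp.supported ℚ ℚ (inS V n)).map (Psi X n).toLinearMap := by
        rw [hxy, ← sMap_range]; exact ⟨y, rfl⟩
      obtain ⟨c, hc, hc'⟩ := h1
      obtain ⟨d, hd, hd'⟩ := h2
      have hcd : c = d := (Psi X n).injective (hc'.trans hd'.symm)
      subst hcd
      have h3 : c ∈ Finsupp.supported ℚ ℚ (inS (U ∩ V) n) := by
        have : inS (U ∩ V) n = inS U n ∩ inS V n := by
          ext σ
          exact Set.subset_inter_iff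
        rw [this, Finsupp.supported_inter]
        exact ⟨hc, hd⟩
      rw [← range_push] at h3
      obtain ⟨z, hz⟩ := h3
      refine ⟨Psi _ n z, ?_⟩
      rw [← hc', ← hz]
      have h4 := congrArg (fun f => (f.f n).hom (Psi _ n z))
        (singularMap_comp (incl' (Set.inter_subset_left : U ∩ V ⊆ U)) (incl U))
      simp only [HomologicalComplex.comp_f, ModuleCat.hom_comp, LinearMap.comp_apply] at h4
      rw [← h4, incl_comp]
      exact singularMap_Psi _ _ _)
    fUV fU fV
  obtain ⟨k1, k2⟩ := key
  obtain ⟨l1, l2⟩ := FinH.of_iso k1 (small_same hU hV h)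
  refine ⟨l1, ?_⟩
  exact l2.trans k2

end Pool.Agent.Helper5.GC
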