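import Mathlib

open Finset

namespace Pool.Agent.Helper5.QC

section core

variable {A B : Type*} [CommRing A] [CommRing B]

/-- the Gaussian binomial coefficient `[n+k choose k]` by the q-Pascal rule -/
def qb (q : A) : ℕ → ℕ → A
  | 0, _ => 1
  | _ + 1, 0 => 1
  | n + 1, k + 1 => qb q (n + 1) k + q ^ (k + 1) * qb q n (k + 1)

/-- `(q;q)_n` -/
def qf (q : A) (n : ℕ) : A := ∏ i ∈ range n, (1 - q ^ (i + 1))

theorem qb_mul (q : A) (n k : ℕ) : qb q n k * (qf q k * qf q n) = qf q (n + k) := by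
  induction n generalizing k with
  | zero => simp [qb, qf]
  | succ n ihn =>
    induction k with
    | zero => simp [qb, qf]
    | succ k ihk =>
      have h1 := ihn (k + 1)
      have e1 : qf q (k + 1) = qf q k * (1 - q ^ (k + 1)) := by
        simp [qf, prod_range_succ]
      have e2 : qf q (n + 1) = qf q n * (1 - q ^ (n + 1)) := by
        simp [qf, prod_range_succ]
      have e3 : qf q (n + 1 + (k + 1)) = qf q (n + 1 + k) * (1 - q ^ (n + k + 2)) := by
        rw [show n + 1 + (k + 1) = (n + 1 + k) + 1 by ring, qf, prod_range_succ, ← qf]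
        ring
      have e4 : qf q (n + (k + 1)) = qf q (n + 1 + k) := by
        congr 1; ring
      rw [e4] at h1
      rw [e3, qb]
      calc (qb q (n + 1) k + q ^ (k + 1) * qb q n (k + 1)) * (qf q (k + 1) * qf q (n + 1))
          = (1 - q ^ (k + 1)) * (qb q (n + 1) k * (qf q k * qf q (n + 1)))
            + q ^ (k + 1) * (1 - q ^ (n + 1)) * (qb q n (k + 1) * (qf q (k + 1) * qf q n)) := by
              rw [e1, e2]; ring
        _ = qf q (n + 1 + k) * (1 - q ^ (n + k + 2)) := by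
              rw [ihk, h1]; ring

theorem map_qb (f : A →+* B) (q : A) (n k : ℕ) : f (qb q n k) = qb (f q) n k := by
  induction n generalizing k with
  | zero => simp [qb]
  | succ n ihn =>
    induction k with
    | zero => simp [qb]
    | succ k ihk => simp [qb, ihn, ihk]

/-- central Gaussian binomial coefficient -/
def cb (q : A) (j : ℕ) : A := qb q j j

theorem map_cb (f : A →+* B) (q : A) (j : ℕ) : f (cb q j) = cb (f q) j := map_qb f q j j

theorem cb_zero (q : A) : cb q 0 = 1 := by simp [cb, qb]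

theorem one_sub_X_pow_ne (k : ℕ) : (1 - Polynomial.X ^ (k + 1) : Polynomial ℤ) ≠ 0 := by
  intro h
  have := congrArg (Polynomial.eval 0) h
  simp at this

theorem qf_X_ne (j : ℕ) : qf (Polynomial.X : Polynomial ℤ) j ≠ 0 := by
  rw [qf, prod_ne_zero_iff]
  intro i _
  exact one_sub_X_pow_ne i

theorem cb_succ_X (j : ℕ) :
    cb (Polynomial.X : Polynomial ℤ) (j + 1) * (1 - Polynomial.X ^ (j + 1)) =
      cb Polynomial.X j * (1 - Polynomial.X ^ (2 * j + 1)) * (1 + Polynomial.X ^ (j + 1)) := by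
  have h1 := qb_mul (Polynomial.X : Polynomial ℤ) (j + 1) (j + 1)
  have h2 := qb_mul (Polynomial.X : Polynomial ℤ) j j
  have e1 : qf (Polynomial.X : Polynomial ℤ) (j + 1) = qf Polynomial.X j * (1 - Polynomial.X ^ (j + 1)) := by
    simp [qf, prod_range_succ]
  have e2 : qf (Polynomial.X : Polynomial ℤ) (j + 1 + (j + 1)) =
      qf Polynomial.X (j + j) * (1 - Polynomial.X ^ (2 * j + 1)) * (1 - Polynomial.X ^ (2 * j + 2)) := by
    rw [show j + 1 + (j + 1) = (j + j) + 1 + 1 by ring, qf, prod_range_succ, prod_range_succ, ← qf]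
    ring
  have hne : qf (Polynomial.X : Polynomial ℤ) j * qf Polynomial.X j * (1 - Polynomial.X ^ (j + 1)) ≠ 0 :=
    mul_ne_zero (mul_ne_zero (qf_X_ne j) (qf_X_ne j)) (one_sub_X_pow_ne j)
  apply mul_left_cancel₀ hne
  rw [e2, ← h2, e1] at h1
  unfold cb
  linear_combination h1

theorem cb_succ (q : A) (j : ℕ) :
    cb q (j + 1) * (1 - q ^ (j + 1)) = cb q j * (1 - q ^ (2 * j + 1)) * (1 + q ^ (j + 1)) := by
  have h := congrArg (Polynomial.eval₂RingHom (Int.castRingHom A) q) (cb_succ_X j)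
  rw [map_mul, map_mul, map_mul, map_cb, map_cb] at h
  simpa using h

/-- `[m] = 1 + q + ... + q^(m-1)` -/
def gs (q : A) (m : ℕ) : A := ∑ i ∈ range m, q ^ i

theorem gs_mul (q : A) (m : ℕ) : (1 - q) * gs q m = 1 - q ^ m := by
  rw [gs, mul_comm]; exact geom_sum_mul_neg q m

/-- `∏ (1 - a q^(2i+1)) (a - q^(2i+1))` -/
def PA (q a : A) (J : ℕ) : A := ∏ i ∈ range J, ((1 - a * q ^ (2 * i + 1)) * (a - q ^ (2 * i + 1)))

/-- `∏ (b - q^(2i+1))` -/
def PL (q b : A) (J : ℕ) : A := ∏ i ∈ range J, (b - q ^ (2 * i + 1))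

/-- `∏ (b - q^(i+1))` -/
def PR (q b : A) (J : ℕ) : A := ∏ i ∈ range J, (b - q ^ (i + 1))

/-- `∏ (b - q^i)` -/
def PS (q b : A) (J : ℕ) : A := ∏ i ∈ range J, (b - q ^ i)

/-- numerator of the L-sum -/
def NL (q a b : A) : ℕ → A
  | 0 => 1
  | J + 1 => NL q a b J * ((1 + q ^ (J + 1)) ^ 2 * (1 - a * q ^ (2 * J + 2)) *
      (a - q ^ (2 * J + 2)) * (1 - b * q ^ (2 * J + 2)))
      + gs q (4 * J + 5) * cb q (J + 1) * PA q a (J + 1) * PL q b (J + 1)

/-- numerator of the R-sum -/
def NR (q a b : A) : ℕ → A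
  | 0 => 1
  | J + 1 => NR q a b J * ((1 + q ^ (J + 1)) * (1 - a * q ^ (J + 1)) *
      (a - q ^ (J + 1)) * q ^ (J + 1) * (1 - b * q ^ (2 * J + 2)))
      + gs q (3 * J + 4) * cb q (J + 1) * PA q a (J + 1) * PR q b (J + 1)

theorem PL_shift (q b : A) (J : ℕ) :
    PL q (b * q ^ 2) (J + 1) = q ^ (2 * J + 1) * (b * q - 1) * PL q b J := by
  induction J with
  | zero => simp [PL]; ring
  | succ J ih =>
    rw [PL, prod_range_succ, ← PL, ih]
    conv_rhs => rw [PL, prod_range_succ, ← PL]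
    ring

theorem PR_shift (q b : A) (J : ℕ) :
    PR q (b * q ^ 2) (J + 1) = q ^ (2 * J + 1) * (b * q - 1) * PS q b J := by
  induction J with
  | zero => simp [PR, PS]; ring
  | succ J ih =>
    rw [PR, prod_range_succ, ← PR, ih]
    conv_rhs => rw [PS, prod_range_succ, ← PS]
    ring

theorem PR_PS (q b : A) (J : ℕ) :
    (b - 1) * PR q b J = PS q b (J + 1) := by
  rw [PS, prod_range_succ', PR]
  simp [mul_comm]

theorem starL (q a b : A) (J : ℕ) :
    (1 - q) * (1 - a * b * q) * (a - b * q) * NL q a (b * q ^ 2) J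
      - a * (1 - q) * (1 - b) * (1 - b * q ^ (2 * J + 2)) * NL q a b J
      = b * cb q J * (1 - q ^ (2 * J + 1)) * PA q a (J + 1) * PL q b J := by
  induction J with
  | zero => simp [NL, PL, PA, cb_zero]; ring
  | succ J ih =>
    have hcb := cb_succ q J
    have hgs := gs_mul q (4 * J + 5)
    have hPA : PA q a (J + 2) = PA q a (J + 1) * ((1 - a * q ^ (2 * J + 3)) * (a - q ^ (2 * J + 3))) := by
      rw [PA, prod_range_succ, ← PA]; ring_nf
    have hPL : PL q b (J + 1) = PL q b J * (b - q ^ (2 * J + 1)) := by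
      rw [PL, prod_range_succ, ← PL]
    rw [NL, NL, PL_shift, hPL, hPA]
    have e1 : q ^ (4 * J + 5) = (q ^ J) ^ 4 * q ^ 5 := by ring
    have e2 : q ^ (2 * J + 1) = (q ^ J) ^ 2 * q := by ring
    have e3 : q ^ (J + 1) = q ^ J * q := by ring
    have e4 : q ^ (2 * J + 2) = (q ^ J) ^ 2 * q ^ 2 := by ring
    have e5 : q ^ (2 * J + 3) = (q ^ J) ^ 2 * q ^ 3 := by ring
    have e6 : q ^ (2 * (J + 1) + 2) = (q ^ J) ^ 2 * q ^ 4 := by ring
    have e7 : q ^ (2 * (J + 1) + 1) = (q ^ J) ^ 2 * q ^ 3 := by ring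
    rw [e1] at hgs
    rw [e2, e3] at hcb
    rw [e2, e4] at ih
    simp only [e2, e3, e4, e5, e6, e7]
    generalize q ^ J = x at *
    generalize PA q a (J + 1) = P at *
    generalize PL q b J = S at *
    generalize cb q (J + 1) = c1 at *
    generalize cb q J = c0 at *
    generalize gs q (4 * J + 5) = g at *
    generalize NL q a (b * q ^ 2) J = N2 at *
    generalize NL q a b J = N1 at *
    linear_combination ((1 + x * q) ^ 2 * (1 - a * (x ^ 2 * q ^ 2)) * (a - x ^ 2 * q ^ 2) * (1 - b * (x ^ 2 * q ^ 4))) * ih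
      + ((1 - a * b * q) * (a - b * q) * (x ^ 2 * q) * (b * q - 1) * c1 * P * S - a * (1 - b) * (1 - b * (x ^ 2 * q ^ 4)) * c1 * P * S * (b - x ^ 2 * q)) * hgs
      - (b * P * S * (1 + x * q) * (1 - a * (x ^ 2 * q ^ 2)) * (a - x ^ 2 * q ^ 2) * (1 - b * (x ^ 2 * q ^ 4))) * hcb

theorem starR (q a b : A) (J : ℕ) :
    (1 - q) * (1 - a * b * q) * (a - b * q) * NR q a (b * q ^ 2) J
      - a * (1 - q) * (1 - b) * (1 - b * q ^ (2 * J + 2)) * NR q a b J
      = b * cb q J * (1 - q ^ (2 * J + 1)) * PA q a (J + 1) * PS q b J := by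
  induction J with
  | zero => simp [NR, PS, PA, cb_zero]; ring
  | succ J ih =>
    have hcb := cb_succ q J
    have hgs := gs_mul q (3 * J + 4)
    have hPA : PA q a (J + 2) = PA q a (J + 1) * ((1 - a * q ^ (2 * J + 3)) * (a - q ^ (2 * J + 3))) := by
      rw [PA, prod_range_succ, ← PA]; ring_nf
    have hPS : PS q b (J + 1) = PS q b J * (b - q ^ J) := by
      rw [PS, prod_range_succ, ← PS]
    have hPR : (b - 1) * PR q b (J + 1) = PS q b J * (b - q ^ J) * (b - q ^ (J + 1)) := by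
      rw [PR_PS, PS, prod_range_succ, prod_range_succ, ← PS]
    rw [NR, NR, PR_shift, hPS, hPA]
    have e1 : q ^ (3 * J + 4) = (q ^ J) ^ 3 * q ^ 4 := by ring
    have e2 : q ^ (2 * J + 1) = (q ^ J) ^ 2 * q := by ring
    have e3 : q ^ (J + 1) = q ^ J * q := by ring
    have e4 : q ^ (2 * J + 2) = (q ^ J) ^ 2 * q ^ 2 := by ring
    have e5 : q ^ (2 * J + 3) = (q ^ J) ^ 2 * q ^ 3 := by ring
    have e6 : q ^ (2 * (J + 1) + 2) = (q ^ J) ^ 2 * q ^ 4 := by ring
    have e7 : q ^ (2 * (J + 1) + 1) = (q ^ J) ^ 2 * q ^ 3 := by ring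
    rw [e1] at hgs
    rw [e2, e3] at hcb
    rw [e2, e4] at ih
    rw [e3] at hPR
    simp only [e2, e3, e4, e5, e6, e7]
    generalize q ^ J = x at *
    generalize PA q a (J + 1) = P at *
    generalize PS q b J = S at *
    generalize cb q (J + 1) = c1 at *
    generalize cb q J = c0 at *
    generalize gs q (3 * J + 4) = g at *
    generalize NR q a (b * q ^ 2) J = N2 at *
    generalize NR q a b J = N1 at *
    generalize PR q b (J + 1) = T at *
    linear_combination ((1 + x * q) * (1 - a * (x * q)) * (a - x * q) * (x * q) * (1 - b * (x ^ 2 * q ^ 4))) * ih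
      + ((1 - a * b * q) * (a - b * q) * (x ^ 2 * q) * (b * q - 1) * c1 * P * S + a * (1 - b * (x ^ 2 * q ^ 4)) * c1 * P * S * (b - x) * (b - x * q)) * hgs
      - (b * P * S * (1 - a * (x * q)) * (a - x * q) * (x * q) * (1 - b * (x ^ 2 * q ^ 4))) * hcb
      + (a * (1 - q) * (1 - b * (x ^ 2 * q ^ 4)) * g * c1 * P) * hPR

/-- b-free part of the denominator of the L-sum -/
def DL (q a : A) (J : ℕ) : A :=
  ∏ i ∈ range J, ((1 + q ^ (i + 1)) ^ 2 * (1 - a * q ^ (2 * i + 2)) * (a - q ^ (2 * i + 2)))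

/-- b-free part of the denominator of the R-sum -/
def DR (q a : A) (J : ℕ) : A :=
  ∏ i ∈ range J, ((1 + q ^ (i + 1)) * (1 - a * q ^ (i + 1)) * (a - q ^ (i + 1)) * q ^ (i + 1))

/-- `∏ (1 - b q^(2i+2))` -/
def EE (q b : A) (J : ℕ) : A := ∏ i ∈ range J, (1 - b * q ^ (2 * i + 2))

/-- numerator of the difference -/
def UU (q a b : A) (N m : ℕ) : A :=
  DR q a m * EE q b m * NL q a b N - DL q a N * EE q b N * NR q a b m

/-- inhomogeneous term -/
def HH (q a b : A) (N m : ℕ) : A :=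
  DR q a m * EE q b m * (1 - b * q ^ (2 * m + 2)) *
    (b * cb q N * (1 - q ^ (2 * N + 1)) * PA q a (N + 1) * PL q b N)
  - DL q a N * EE q b N * (1 - b * q ^ (2 * N + 2)) *
    (b * cb q m * (1 - q ^ (2 * m + 1)) * PA q a (m + 1) * PS q b m)

theorem DL_succ (q a : A) (J : ℕ) : DL q a (J + 1) = DL q a J *
    ((1 + q ^ (J + 1)) ^ 2 * (1 - a * q ^ (2 * J + 2)) * (a - q ^ (2 * J + 2))) := by
  rw [DL, prod_range_succ, ← DL]

theorem DR_succ (q a : A) (J : ℕ) : DR q a (J + 1) = DR q a J *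
    ((1 + q ^ (J + 1)) * (1 - a * q ^ (J + 1)) * (a - q ^ (J + 1)) * q ^ (J + 1)) := by
  rw [DR, prod_range_succ, ← DR]

theorem EE_succ (q b : A) (J : ℕ) : EE q b (J + 1) = EE q b J * (1 - b * q ^ (2 * J + 2)) := by
  rw [EE, prod_range_succ, ← EE]

theorem PA_succ (q a : A) (J : ℕ) : PA q a (J + 1) = PA q a J *
    ((1 - a * q ^ (2 * J + 1)) * (a - q ^ (2 * J + 1))) := by
  rw [PA, prod_range_succ, ← PA]

theorem PL_succ (q b : A) (J : ℕ) : PL q b (J + 1) = PL q b J * (b - q ^ (2 * J + 1)) := by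
  rw [PL, prod_range_succ, ← PL]

theorem PR_succ (q b : A) (J : ℕ) : PR q b (J + 1) = PR q b J * (b - q ^ (J + 1)) := by
  rw [PR, prod_range_succ, ← PR]

theorem PS_succ (q b : A) (J : ℕ) : PS q b (J + 1) = PS q b J * (b - q ^ J) := by
  rw [PS, prod_range_succ, ← PS]

theorem EE_shift (q b : A) (J : ℕ) :
    EE q (b * q ^ 2) J * (1 - b * q ^ 2) = EE q b J * (1 - b * q ^ (2 * J + 2)) := by
  induction J with
  | zero => simp [EE]
  | succ J ih =>
    rw [EE, prod_range_succ, ← EE]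
    conv_rhs => rw [EE, prod_range_succ, ← EE]
    linear_combination (1 - b * q ^ (2 * J + 4)) * ih

theorem starU (q a b : A) (N m : ℕ) :
    (1 - q) * (1 - a * b * q) * (a - b * q) * (1 - b * q ^ 2) * UU q a (b * q ^ 2) N m
      = a * (1 - q) * (1 - b) * (1 - b * q ^ (2 * m + 2)) * (1 - b * q ^ (2 * N + 2)) * UU q a b N m
        + HH q a b N m := by
  have h1 := starL q a b N
  have h2 := starR q a b m
  have h3 := EE_shift q b N
  have h4 := EE_shift q b m
  unfold UU HH
  generalize EE q (b * q ^ 2) N = E1 at *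
  generalize EE q (b * q ^ 2) m = E2 at *
  generalize EE q b N = F1 at *
  generalize EE q b m = F2 at *
  generalize NL q a (b * q ^ 2) N = L2 at *
  generalize NL q a b N = L1 at *
  generalize NR q a (b * q ^ 2) m = R2 at *
  generalize NR q a b m = R1 at *
  linear_combination (DR q a m * F2 * (1 - b * q ^ (2 * m + 2))) * h1
    - (DL q a N * F1 * (1 - b * q ^ (2 * N + 2))) * h2
    - ((1 - q) * (1 - a * b * q) * (a - b * q) * DL q a N * R2) * h3
    + ((1 - q) * (1 - a * b * q) * (a - b * q) * DR q a m * L2) * h4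

theorem map_PA (f : A →+* B) (q a : A) (J : ℕ) : f (PA q a J) = PA (f q) (f a) J := by
  simp [PA, map_prod]

theorem map_PL (f : A →+* B) (q b : A) (J : ℕ) : f (PL q b J) = PL (f q) (f b) J := by
  simp [PL, map_prod]

theorem map_PR (f : A →+* B) (q b : A) (J : ℕ) : f (PR q b J) = PR (f q) (f b) J := by
  simp [PR, map_prod]

theorem map_PS (f : A →+* B) (q b : A) (J : ℕ) : f (PS q b J) = PS (f q) (f b) J := by
  simp [PS, map_prod]

theorem map_EE (f : A →+* B) (q b : A) (J : ℕ) : f (EE q b J) = EE (f q) (f b) J := by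
  simp [EE, map_prod]

theorem map_DL (f : A →+* B) (q a : A) (J : ℕ) : f (DL q a J) = DL (f q) (f a) J := by
  simp [DL, map_prod]

theorem map_DR (f : A →+* B) (q a : A) (J : ℕ) : f (DR q a J) = DR (f q) (f a) J := by
  simp [DR, map_prod]

theorem map_gs (f : A →+* B) (q : A) (m : ℕ) : f (gs q m) = gs (f q) m := by
  simp [gs, map_sum]

theorem map_NL (f : A →+* B) (q a b : A) (J : ℕ) : f (NL q a b J) = NL (f q) (f a) (f b) J := by
  induction J with
  | zero => simp [NL]
  | succ J ih => simp [NL, ih, map_gs, map_cb, map_PA, map_PL]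

theorem map_NR (f : A →+* B) (q a b : A) (J : ℕ) : f (NR q a b J) = NR (f q) (f a) (f b) J := by
  induction J with
  | zero => simp [NR]
  | succ J ih => simp [NR, ih, map_gs, map_cb, map_PA, map_PR]

theorem map_UU (f : A →+* B) (q a b : A) (N m : ℕ) :
    f (UU q a b N m) = UU (f q) (f a) (f b) N m := by
  simp [UU, map_DR, map_EE, map_NL, map_DL, map_NR]

theorem map_HH (f : A →+* B) (q a b : A) (N m : ℕ) :
    f (HH q a b N m) = HH (f q) (f a) (f b) N m := by
  simp [HH, map_DR, map_EE, map_DL, map_cb, map_PA, map_PL, map_PS]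

/-- at `b = q` both sums reduce to their first term -/
theorem NL_at_q (q a : A) (J : ℕ) : NL q a q J = DL q a J * EE q q J := by
  induction J with
  | zero => simp [NL, DL, EE]
  | succ J ih =>
    have hPL : PL q q (J + 1) = 0 := by
      rw [PL, prod_range_succ']; simp
    rw [NL, hPL, ih, DL_succ, EE_succ]
    ring

theorem NR_at_q (q a : A) (J : ℕ) : NR q a q J = DR q a J * EE q q J := by
  induction J with
  | zero => simp [NR, DR, EE]
  | succ J ih =>
    have hPR : PR q q (J + 1) = 0 := by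
      rw [PR, prod_range_succ']; simp
    rw [NR, hPR, ih, DR_succ, EE_succ]
    ring

theorem UU_at_q (q a : A) (N m : ℕ) : UU q a q N m = 0 := by
  rw [UU, NL_at_q, NR_at_q]; ring

/-- the inhomogeneous term vanishes at `b = q^(2i+1)` -/
theorem HH_at_pow (q a : A) (N i : ℕ) (hi : i < N) : HH q a (q ^ (2 * i + 1)) N (2 * N) = 0 := by
  have h1 : PL q (q ^ (2 * i + 1)) N = 0 := by
    rw [PL]; exact prod_eq_zero (mem_range.2 hi) (by simp)
  have h2 : PS q (q ^ (2 * i + 1)) (2 * N) = 0 := by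
    rw [PS]; exact prod_eq_zero (i := 2 * i + 1) (mem_range.2 (by omega)) (by simp)
  rw [HH, h1, h2]; ring

/-- the inhomogeneous term vanishes at `a = q^n` -/
theorem HH_at_a (q b : A) (N : ℕ) (hN : 0 < N) : HH q (q ^ (2 * N + 1)) b N (2 * N) = 0 := by
  have h1 : PA q (q ^ (2 * N + 1)) (N + 1) = 0 := by
    rw [PA]; exact prod_eq_zero (i := N) (mem_range.2 (by omega)) (by simp)
  have h2 : PA q (q ^ (2 * N + 1)) (2 * N + 1) = 0 := by
    rw [PA]; exact prod_eq_zero (i := N) (mem_range.2 (by omega)) (by simp)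
  rw [HH, h1, h2]; ring

end core

end Pool.Agent.Helper5.QC
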