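import Mathlib
import Pool.Agent.Helper5.QC1

open Finset

namespace Pool.Agent.Helper5.QC

section root

variable {A : Type*} [CommRing A]

/-- cofactor of `1 - q^n` in `(1 + q^n) * HH` -/
def H2 (q a b : A) (N : ℕ) : A :=
  (1 + q ^ (2 * N + 1)) * (DR q a (2 * N) * EE q b (2 * N) * (1 - b * q ^ (2 * (2 * N) + 2))) *
    (b * cb q N * PA q a (N + 1) * PL q b N)
  - DL q a N * EE q b N * (1 - b * q ^ (2 * N + 2)) *
    (b * cb q (2 * N + 1) * PA q a (2 * N + 1) * PS q b (2 * N))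

theorem HH_eq (q a b : A) (N : ℕ) :
    (1 + q ^ (2 * N + 1)) * HH q a b N (2 * N) = (1 - q ^ (2 * N + 1)) * H2 q a b N := by
  have h := cb_succ q (2 * N)
  unfold HH H2
  linear_combination (DL q a N * EE q b N * (1 - b * q ^ (2 * N + 2)) * b * PA q a (2 * N + 1) * PS q b (2 * N)) * h

variable {F : Type*} [Field F]

theorem prod_root {ω : F} {n : ℕ} (hω : IsPrimitiveRoot ω n) (hn : 0 < n) (x y : F) :
    ∏ i ∈ range n, (x - ω ^ i * y) = x ^ n - y ^ n := by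
  have h := X_pow_sub_C_eq_prod hω hn (α := y) (a := y ^ n) rfl
  have h' := congrArg (Polynomial.eval x) h
  simp only [Polynomial.eval_sub, Polynomial.eval_pow, Polynomial.eval_X, Polynomial.eval_C,
    Polynomial.eval_prod] at h'
  exact h'.symm

variable {ζ : F} {N : ℕ}

theorem Z_eq (ζ : F) (N : ℕ) : ∏ i ∈ range N, ζ ^ (2 * i + 1) = ζ ^ (N ^ 2) := by
  rw [prod_pow_eq_pow_sum]
  congr 1
  induction N with
  | zero => simp
  | succ N ih => rw [sum_range_succ, ih]; ring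

theorem Z4 (hζ : IsPrimitiveRoot ζ (2 * N + 1)) (hN : 0 < N) : (ζ ^ (N ^ 2)) ^ 4 = ζ := by
  rw [← pow_mul]
  have : N ^ 2 * 4 = (2 * N + 1) * (2 * N - 1) + 1 := by
    obtain ⟨k, rfl⟩ : ∃ k, N = k + 1 := ⟨N - 1, by omega⟩
    have : 2 * (k + 1) - 1 = 2 * k + 1 := by omega
    rw [this]; ring
  rw [this, pow_succ, pow_mul, hζ.pow_eq_one, one_pow, one_mul]

theorem refl_aux (hζ : IsPrimitiveRoot ζ (2 * N + 1)) (x y : F) :
    (∏ i ∈ range N, (x - y * ζ ^ (2 * i + 2))) * ζ ^ (N ^ 2)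
      = ∏ i ∈ range N, (x * ζ ^ (2 * i + 1) - y) := by
  rw [← Z_eq, ← prod_range_reflect (fun i => x - y * ζ ^ (2 * i + 2)), ← prod_mul_distrib]
  apply prod_congr rfl
  intro i hi
  have hi' := mem_range.1 hi
  have : ζ ^ (2 * (N - 1 - i) + 2) * ζ ^ (2 * i + 1) = 1 := by
    rw [← pow_add, ← hζ.pow_eq_one]
    congr 1; omega
  linear_combination (-y) * this

theorem cb_root (ζ : F) (J : ℕ) :
    cb ζ J * ∏ i ∈ range J, (1 - ζ ^ (2 * i + 2)) =
      (∏ i ∈ range J, (1 - ζ ^ (2 * i + 1))) * (∏ i ∈ range J, (1 + ζ ^ (i + 1)) ^ 2) := by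
  induction J with
  | zero => simp [cb_zero]
  | succ J ih =>
    have ih' := ih
    rw [prod_range_succ, prod_range_succ, prod_range_succ]
    have h := cb_succ ζ J
    have hfac : (1 : F) - ζ ^ (2 * J + 2) = (1 - ζ ^ (J + 1)) * (1 + ζ ^ (J + 1)) := by ring
    rw [hfac]
    linear_combination ((∏ i ∈ range J, (1 - ζ ^ (2 * i + 2))) * (1 + ζ ^ (J + 1))) * h
      + ((1 - ζ ^ (2 * J + 1)) * (1 + ζ ^ (J + 1)) ^ 2) * ih'

theorem pow_sub_ne (hζ : IsPrimitiveRoot ζ (2 * N + 1)) (k : ℕ) (hk : 0 < k) (hk2 : k < 2 * N + 1) :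
    (1 : F) - ζ ^ k ≠ 0 := by
  intro h
  have h1 : ζ ^ k = 1 := by linear_combination -h
  have := hζ.dvd_of_pow_eq_one k h1
  exact absurd (Nat.le_of_dvd hk this) (by omega)

theorem cb_root_N (hζ : IsPrimitiveRoot ζ (2 * N + 1)) :
    cb ζ N = (-1) ^ N * ζ ^ (N ^ 2) * ∏ i ∈ range N, (1 + ζ ^ (i + 1)) ^ 2 := by
  have h1 := cb_root ζ N
  have h2 := refl_aux hζ 1 1
  have hne : (∏ i ∈ range N, (1 - ζ ^ (2 * i + 1))) ≠ 0 := by
    rw [prod_ne_zero_iff]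
    intro i hi
    exact pow_sub_ne hζ _ (by omega) (by have := mem_range.1 hi; omega)
  have h3 : ∏ i ∈ range N, ((1 : F) * ζ ^ (2 * i + 1) - 1) =
      (-1) ^ N * ∏ i ∈ range N, (1 - ζ ^ (2 * i + 1)) := by
    rw [← card_range N, ← prod_const, card_range, ← prod_mul_distrib]
    apply prod_congr rfl
    intro i _; ring
  have hs : ((-1 : F) ^ N) * (-1) ^ N = 1 := by
    rw [← mul_pow]; simp
  rw [h3] at h2
  simp only [one_mul] at h2
  apply mul_right_cancel₀ hne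
  linear_combination (-1) ^ N * ζ ^ (N ^ 2) * h1 - (-1) ^ N * cb ζ N * h2 - cb ζ N *
    (∏ i ∈ range N, (1 - ζ ^ (2 * i + 1))) * hs

theorem cop2 (N : ℕ) : Nat.Coprime 2 (2 * N + 1) := by
  rw [Nat.coprime_two_left]; exact ⟨N, rfl⟩

theorem prim2 (hζ : IsPrimitiveRoot ζ (2 * N + 1)) : IsPrimitiveRoot (ζ ^ 2) (2 * N + 1) :=
  hζ.pow_of_coprime 2 (cop2 N)

/-- `∏_{i<n} (x - y ζ^(2i+c))` -/
theorem prod_odd (hζ : IsPrimitiveRoot ζ (2 * N + 1)) (x y : F) (c : ℕ) :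
    ∏ i ∈ range (2 * N + 1), (x - y * ζ ^ (2 * i + c)) = x ^ (2 * N + 1) - y ^ (2 * N + 1) := by
  have h := prod_root (prim2 hζ) (by omega) x (ζ ^ c * y)
  have e : (ζ ^ c * y) ^ (2 * N + 1) = y ^ (2 * N + 1) := by
    rw [mul_pow, ← pow_mul, mul_comm c, pow_mul, hζ.pow_eq_one, one_pow, one_mul]
  rw [e] at h
  rw [← h]
  apply prod_congr rfl
  intro i _
  rw [← pow_mul, pow_add]; ring

/-- `∏_{i<n} (x - y ζ^(i+c))` -/
theorem prod_all (hζ : IsPrimitiveRoot ζ (2 * N + 1)) (x y : F) (c : ℕ) :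
    ∏ i ∈ range (2 * N + 1), (x - y * ζ ^ (i + c)) = x ^ (2 * N + 1) - y ^ (2 * N + 1) := by
  have h := prod_root hζ (by omega) x (ζ ^ c * y)
  have e : (ζ ^ c * y) ^ (2 * N + 1) = y ^ (2 * N + 1) := by
    rw [mul_pow, ← pow_mul, mul_comm c, pow_mul, hζ.pow_eq_one, one_pow, one_mul]
  rw [e] at h
  rw [← h]
  apply prod_congr rfl
  intro i _
  rw [pow_add]; ring

theorem PA_root (hζ : IsPrimitiveRoot ζ (2 * N + 1)) (a : F) :
    PA ζ a (2 * N + 1) = (1 - a ^ (2 * N + 1)) * (a ^ (2 * N + 1) - 1) := by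
  have h1 := prod_odd hζ 1 a 1
  have h2 := prod_odd hζ a 1 1
  simp only [one_pow, one_mul] at h1 h2
  rw [PA, prod_mul_distrib, h1, h2]

theorem PA_half (hζ : IsPrimitiveRoot ζ (2 * N + 1)) (a : F) :
    PA ζ a (N + 1) = PA ζ a N * ((1 - a) * (a - 1)) := by
  rw [PA_succ, hζ.pow_eq_one]; ring

theorem EE_root (hζ : IsPrimitiveRoot ζ (2 * N + 1)) (b : F) :
    EE ζ b (2 * N) * (1 - b * ζ ^ (2 * (2 * N) + 2)) = 1 - b ^ (2 * N + 1) := by
  rw [← EE_succ, EE, prod_odd hζ 1 b 2, one_pow]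

theorem one_add_root [NeZero (2 : F)] (hζ : IsPrimitiveRoot ζ (2 * N + 1)) :
    ∏ i ∈ range (2 * N), (1 + ζ ^ (i + 1)) = 1 := by
  have h := prod_all hζ (-1) 1 1
  have hodd : (-1 : F) ^ (2 * N + 1) = -1 := by
    rw [pow_succ, pow_mul]; simp
  have h2 : ∏ i ∈ range (2 * N + 1), ((-1 : F) - 1 * ζ ^ (i + 1)) =
      (-1) ^ (2 * N + 1) * ∏ i ∈ range (2 * N + 1), (1 + ζ ^ (i + 1)) := by
    rw [← card_range (2 * N + 1), ← prod_const, card_range, ← prod_mul_distrib]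
    apply prod_congr rfl
    intro i _; ring
  rw [h2, hodd, prod_range_succ, hζ.pow_eq_one] at h
  have h2' : (2 : F) ≠ 0 := NeZero.ne _
  apply mul_right_cancel₀ h2'
  linear_combination -h

theorem pow_root (hζ : IsPrimitiveRoot ζ (2 * N + 1)) :
    ∏ i ∈ range (2 * N), ζ ^ (i + 1) = 1 := by
  have h := prod_all hζ 0 1 1
  have hodd : (-1 : F) ^ (2 * N + 1) = -1 := by
    rw [pow_succ, pow_mul]; simp
  have h2 : ∏ i ∈ range (2 * N + 1), ((0 : F) - 1 * ζ ^ (i + 1)) =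
      (-1) ^ (2 * N + 1) * ∏ i ∈ range (2 * N + 1), (ζ ^ (i + 1)) := by
    rw [← card_range (2 * N + 1), ← prod_const, card_range, ← prod_mul_distrib]
    apply prod_congr rfl
    intro i _; ring
  rw [h2, hodd, prod_range_succ, hζ.pow_eq_one] at h
  simp at h
  exact h

theorem DR_root [NeZero (2 : F)] (hζ : IsPrimitiveRoot ζ (2 * N + 1)) (a : F) :
    DR ζ a (2 * N) * ((1 - a) * (a - 1)) = PA ζ a (2 * N + 1) := by
  have h1 := prod_all hζ 1 a 1
  have h2 := prod_all hζ a 1 1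
  rw [prod_range_succ, hζ.pow_eq_one] at h1 h2
  simp only [one_pow, one_mul, mul_one] at h1 h2
  rw [DR, prod_mul_distrib, prod_mul_distrib, prod_mul_distrib, one_add_root hζ, pow_root hζ,
    PA_root hζ, ← h1, ← h2]
  ring

theorem PS_root (hζ : IsPrimitiveRoot ζ (2 * N + 1)) (b : F) :
    (1 - b * ζ ^ (2 * N + 2)) * PS ζ b (2 * N) = ζ * (1 - b ^ (2 * N + 1)) := by
  have h1 := prod_all hζ b 1 0
  have hs : PS ζ b (2 * N + 1) = b ^ (2 * N + 1) - 1 := by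
    rw [one_pow] at h1
    rw [PS, ← h1]
    apply prod_congr rfl
    intro i _; simp
  rw [PS_succ] at hs
  have e : ζ ^ (2 * N + 2) = ζ := by
    rw [show 2 * N + 2 = (2 * N + 1) + 1 by ring, pow_succ, hζ.pow_eq_one, one_mul]
  have e2 : ζ ^ (2 * N) * ζ = 1 := by rw [← pow_succ, hζ.pow_eq_one]
  rw [e]
  linear_combination -ζ * hs - PS ζ b (2 * N) * e2

theorem DL_root (hζ : IsPrimitiveRoot ζ (2 * N + 1)) (a : F) :
    DL ζ a N * (ζ ^ (N ^ 2)) ^ 2 = (∏ i ∈ range N, (1 + ζ ^ (i + 1)) ^ 2) * PA ζ a N := by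
  have h1 := refl_aux hζ 1 a
  have h2 := refl_aux hζ a 1
  simp only [one_mul] at h1 h2
  rw [DL, prod_mul_distrib, prod_mul_distrib, PA, prod_mul_distrib]
  have h1' : ∏ i ∈ range N, (ζ ^ (2 * i + 1) - a) =
      (-1) ^ N * ∏ i ∈ range N, (a - ζ ^ (2 * i + 1)) := by
    rw [← card_range N, ← prod_const, card_range, ← prod_mul_distrib]
    apply prod_congr rfl
    intro i _; ring
  have h2' : ∏ i ∈ range N, (a * ζ ^ (2 * i + 1) - 1) =
      (-1) ^ N * ∏ i ∈ range N, (1 - a * ζ ^ (2 * i + 1)) := by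
    rw [← card_range N, ← prod_const, card_range, ← prod_mul_distrib]
    apply prod_congr rfl
    intro i _; ring
  have hs : ((-1 : F) ^ N) * (-1) ^ N = 1 := by
    rw [← mul_pow]; simp
  rw [h1'] at h1
  rw [h2'] at h2
  generalize ∏ i ∈ range N, (1 + ζ ^ (i + 1)) ^ 2 = Q at *
  generalize ∏ i ∈ range N, (1 - a * ζ ^ (2 * i + 2)) = X1 at *
  generalize ∏ i ∈ range N, (a - ζ ^ (2 * i + 2)) = X2 at *
  generalize ∏ i ∈ range N, (1 - a * ζ ^ (2 * i + 1)) = Y1 at *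
  generalize ∏ i ∈ range N, (a - ζ ^ (2 * i + 1)) = Y2 at *
  linear_combination (Q * X2 * ζ ^ (N ^ 2)) * h1 + (Q * ((-1) ^ N * Y2)) * h2 + Q * Y1 * Y2 * hs

theorem EE_half_root (hζ : IsPrimitiveRoot ζ (2 * N + 1)) (b : F) :
    EE ζ b N * ζ ^ (N ^ 2) = (-1) ^ N * PL ζ b N := by
  have h1 := refl_aux hζ 1 b
  simp only [one_mul] at h1
  rw [EE, h1, PL, ← card_range N, ← prod_const, card_range, ← prod_mul_distrib]
  apply prod_congr rfl
  intro i _; ring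

theorem cb_n_X (n : ℕ) :
    cb (Polynomial.X : Polynomial ℤ) (n + 1) * qf Polynomial.X n =
      (1 + Polynomial.X ^ (n + 1)) * ∏ i ∈ range n, (1 - Polynomial.X ^ (n + 1 + i + 1)) := by
  have h1 := qb_mul (Polynomial.X : Polynomial ℤ) (n + 1) (n + 1)
  have e1 : qf (Polynomial.X : Polynomial ℤ) (n + 1 + (n + 1)) =
      qf Polynomial.X (n + 1) * ∏ i ∈ range (n + 1), (1 - Polynomial.X ^ (n + 1 + i + 1)) := by
    rw [qf, prod_range_add, ← qf]
  have e2 : qf (Polynomial.X : Polynomial ℤ) (n + 1) = qf Polynomial.X n * (1 - Polynomial.X ^ (n + 1)) := by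
    simp [qf, prod_range_succ]
  rw [e1] at h1
  have h2 : cb (Polynomial.X : Polynomial ℤ) (n + 1) * qf Polynomial.X (n + 1) =
      ∏ i ∈ range (n + 1), (1 - Polynomial.X ^ (n + 1 + i + 1)) := by
    apply mul_left_cancel₀ (qf_X_ne (n + 1))
    rw [← h1, cb]; ring
  rw [e2, prod_range_succ] at h2
  apply mul_left_cancel₀ (one_sub_X_pow_ne n)
  rw [show n + 1 + n + 1 = 2 * (n + 1) by ring] at h2
  linear_combination h2

theorem cb_n (q : A) (n : ℕ) :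
    cb q (n + 1) * qf q n = (1 + q ^ (n + 1)) * ∏ i ∈ range n, (1 - q ^ (n + 1 + i + 1)) := by
  have h := congrArg (Polynomial.eval₂RingHom (Int.castRingHom A) q) (cb_n_X n)
  rw [map_mul, map_mul, map_cb, map_prod, qf, map_prod] at h
  simpa [qf] using h

theorem cb_n_root (hζ : IsPrimitiveRoot ζ (2 * N + 1)) : cb ζ (2 * N + 1) = 2 := by
  have h := cb_n ζ (2 * N)
  have e : ∏ i ∈ range (2 * N), (1 - ζ ^ (2 * N + 1 + i + 1)) = qf ζ (2 * N) := by
    rw [qf]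
    apply prod_congr rfl
    intro i _
    rw [show 2 * N + 1 + i + 1 = (2 * N + 1) + (i + 1) by ring, pow_add, hζ.pow_eq_one, one_mul]
  have hne : qf ζ (2 * N) ≠ 0 := by
    rw [qf, prod_ne_zero_iff]
    intro i hi
    exact pow_sub_ne hζ _ (by omega) (by have := mem_range.1 hi; omega)
  rw [e, hζ.pow_eq_one] at h
  have := mul_right_cancel₀ hne h
  rw [this]; norm_num

theorem H2_root [NeZero (2 : F)] (hζ : IsPrimitiveRoot ζ (2 * N + 1)) (hN : 0 < N) (a b : F) :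
    H2 ζ a b N = 0 := by
  have h1 := DR_root hζ a
  have h2 := EE_root hζ b
  have h3 := PS_root hζ b
  have h4 := DL_root hζ a
  have h5 := EE_half_root hζ b
  have h6 := cb_root_N hζ
  have h7 := cb_n_root hζ
  have h8 := PA_half hζ a
  have h9 := hζ.pow_eq_one
  have h10 := Z4 hζ hN
  have hζ0 : ζ ≠ 0 := hζ.ne_zero (by omega)
  have hZ : ζ ^ (N ^ 2) ≠ 0 := pow_ne_zero _ hζ0
  rw [H2, h7, h8, h9]
  generalize DR ζ a (2 * N) = D2 at *
  generalize EE ζ b (2 * N) = E2 at *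
  generalize PS ζ b (2 * N) = S2 at *
  generalize DL ζ a N = D1 at *
  generalize EE ζ b N = E1 at *
  generalize PA ζ a (2 * N + 1) = P2 at *
  generalize PA ζ a N = P1 at *
  generalize PL ζ b N = L1 at *
  generalize cb ζ N = c at *
  generalize ζ ^ (N ^ 2) = Z at *
  generalize b ^ (2 * N + 1) = bn at *
  generalize 1 - b * ζ ^ (2 * (2 * N) + 2) = u at *
  generalize 1 - b * ζ ^ (2 * N + 2) = v at *
  generalize ∏ i ∈ range N, (1 + ζ ^ (i + 1)) ^ 2 = Q at *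
  apply mul_right_cancel₀ (pow_ne_zero 3 hZ)
  rw [zero_mul]
  subst h6
  -- expression: (1+1)*(D2*E2*u)*(b*c*(P1*((1-a)*(a-1)))*L1) - D1*E1*v*(b*2*P2*S2)
  have k1 : D2 * ((1 - a) * (a - 1)) = P2 := h1
  have k2 : E2 * u = 1 - bn := h2
  have k3 : v * S2 = ζ * (1 - bn) := h3
  have k4 : D1 * Z ^ 2 = Q * P1 := h4
  have k5 : E1 * Z = (-1) ^ N * L1 := h5
  calc _ = 2 * b * ((D2 * ((1 - a) * (a - 1))) * (E2 * u) * P1 * L1 * ((-1) ^ N * Z * Q) * Z ^ 3
            - (D1 * Z ^ 2) * (E1 * Z) * P2 * (v * S2)) := by ring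
    _ = 2 * b * (P2 * (1 - bn) * P1 * L1 * ((-1) ^ N * Q)) * (Z ^ 4 - ζ) := by
        rw [k1, k2, k3, k4, k5]; ring
    _ = 0 := by rw [h10]; ring

end root

end Pool.Agent.Helper5.QC
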