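import Mathlib
import Pool.Agent.Helper5.QC2

open Finset MvPolynomial

namespace Pool.Agent.Helper5.QC

abbrev R3 := MvPolynomial (Fin 3) ℚ

/-- `f(X_0)` as a polynomial in three variables -/
noncomputable def cyc (d : ℕ) : R3 := Polynomial.aeval (X 0 : R3) (Polynomial.cyclotomic d ℚ)

theorem dvd_of_vanish {π W E : R3} (hπ : Prime π) (hE : ¬ π ∣ E)
    (h : ∀ x : Fin 3 → ℂ, aeval x π = 0 → aeval x E ≠ 0 → aeval x W = 0) : π ∣ W := by
  have hP : (Ideal.span {π} : Ideal R3).IsPrime := (Ideal.span_singleton_prime hπ.ne_zero).2 hπ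
  have hmem : W * E ∈ vanishingIdeal ℚ (zeroLocus ℂ (Ideal.span {π} : Ideal R3)) := by
    rw [mem_vanishingIdeal_iff]
    intro x hx
    rw [mem_zeroLocus_iff] at hx
    have h0 := hx π (Ideal.mem_span_singleton_self π)
    rw [map_mul]
    by_cases hEx : aeval x E = 0
    · rw [hEx, mul_zero]
    · rw [h x h0 hEx, zero_mul]
  rw [MvPolynomial.IsPrime.vanishingIdeal_zeroLocus] at hmem
  rw [Ideal.mem_span_singleton] at hmem
  rcases hπ.dvd_or_dvd hmem with h1 | h1
  · exact h1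
  · exact absurd h1 hE

theorem not_dvd_of_point {π E : R3} (x : Fin 3 → ℂ) (h0 : aeval x π = 0) (h1 : aeval x E ≠ 0) :
    ¬ π ∣ E := by
  rintro ⟨c, rfl⟩
  rw [map_mul, h0, zero_mul] at h1
  exact h1 rfl

theorem prime_cyc {d : ℕ} (hd : 0 < d) : Prime (cyc d) := by
  have hp : Prime (Polynomial.cyclotomic d ℚ) := (Polynomial.cyclotomic.irreducible_rat hd).prime
  let e : R3 ≃ₐ[ℚ] MvPolynomial (Fin 2) (Polynomial ℚ) :=
    (renameEquiv ℚ (finSuccEquiv 2)).trans (optionEquivRight ℚ (Fin 2))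
  have he : e (cyc d) = C (Polynomial.cyclotomic d ℚ) := by
    have h1 : e (X 0) = C Polynomial.X := by
      simp [e]
    have h2 : e (cyc d) = Polynomial.aeval (e (X 0)) (Polynomial.cyclotomic d ℚ) := by
      rw [cyc]
      exact (Polynomial.aeval_algHom_apply e.toAlgHom (X 0) _).symm
    rw [h2, h1]
    have h3 := Polynomial.aeval_algHom_apply (IsScalarTower.toAlgHom ℚ (Polynomial ℚ) (MvPolynomial (Fin 2) (Polynomial ℚ)))
      Polynomial.X (Polynomial.cyclotomic d ℚ)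
    simpa [algebraMap_eq] using h3
  have : Prime (e (cyc d)) := by
    rw [he]
    exact (MvPolynomial.prime_C_iff _).2 hp
  exact (MulEquiv.prime_iff e.toMulEquiv).1 this

theorem aeval_cyc (x : Fin 3 → ℂ) (d : ℕ) :
    aeval x (cyc d) = Polynomial.aeval (x 0) (Polynomial.cyclotomic d ℚ) := by
  have := Polynomial.aeval_algHom_apply (aeval x : R3 →ₐ[ℚ] ℂ) (X 0) (Polynomial.cyclotomic d ℚ)
  rw [cyc, ← this, aeval_X]

theorem aeval_cyc_eq_zero {x : Fin 3 → ℂ} {d : ℕ} (hd : 0 < d) :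
    aeval x (cyc d) = 0 ↔ IsPrimitiveRoot (x 0) d := by
  have : NeZero (d : ℂ) := ⟨by exact_mod_cast hd.ne'⟩
  rw [aeval_cyc, ← Polynomial.isRoot_cyclotomic_iff, Polynomial.IsRoot.def,
    Polynomial.aeval_def, Polynomial.eval₂_eq_eval_map, Polynomial.map_cyclotomic]

theorem prime_b (n : ℕ) : Prime (X 2 - X 0 ^ n : R3) := by
  have h : Irreducible ((1 : R3) * X 2 + (-X 0 ^ n)) := by
    apply irreducible_mul_X_add
    · exact one_ne_zero
    · simp
    · intro h
      rw [vars_neg] at h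
      have := vars_pow (X 0 : R3) n h
      simp at this
    · exact isRelPrime_one_left
  have e : (X 2 - X 0 ^ n : R3) = (1 : R3) * X 2 + (-X 0 ^ n) := by ring
  rw [e]
  exact h.prime

theorem prime_a (n : ℕ) : Prime (X 1 - X 0 ^ n : R3) := by
  have h : Irreducible ((1 : R3) * X 1 + (-X 0 ^ n)) := by
    apply irreducible_mul_X_add
    · exact one_ne_zero
    · simp
    · intro h
      rw [vars_neg] at h
      have := vars_pow (X 0 : R3) n h
      simp at this
    · exact isRelPrime_one_left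
  have e : (X 1 - X 0 ^ n : R3) = (1 : R3) * X 1 + (-X 0 ^ n) := by ring
  rw [e]
  exact h.prime

theorem prime_a' (n : ℕ) : Prime (1 - X 1 * X 0 ^ n : R3) := by
  have h : Irreducible ((-X 0 ^ n : R3) * X 1 + 1) := by
    apply irreducible_mul_X_add
    · simp
    · intro h
      rw [vars_neg] at h
      have := vars_pow (X 0 : R3) n h
      simp at this
    · simp
    · exact isRelPrime_one_right
  have e : (1 - X 1 * X 0 ^ n : R3) = (-X 0 ^ n : R3) * X 1 + 1 := by ring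
  rw [e]
  exact h.prime

/-- coefficient functions of the q-difference equation -/
def AA {A : Type*} [CommRing A] (q a b : A) : A :=
  (1 - q) * (1 - a * b * q) * (a - b * q) * (1 - b * q ^ 2)

def BB {A : Type*} [CommRing A] (q a b : A) (N m : ℕ) : A :=
  a * (1 - q) * (1 - b) * (1 - b * q ^ (2 * m + 2)) * (1 - b * q ^ (2 * N + 2))

theorem map_AA {A B : Type*} [CommRing A] [CommRing B] (f : A →+* B) (q a b : A) :
    f (AA q a b) = AA (f q) (f a) (f b) := by
  simp [AA]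

theorem map_BB {A B : Type*} [CommRing A] [CommRing B] (f : A →+* B) (q a b : A) (N m : ℕ) :
    f (BB q a b N m) = BB (f q) (f a) (f b) N m := by
  simp [BB]

/-- the shift `b ↦ b q^2` -/
noncomputable def sg : R3 →ₐ[ℚ] R3 := aeval ![X 0, X 1, X 2 * X 0 ^ 2]

theorem aeval_sg (t a b : ℂ) (W : R3) :
    aeval ![t, a, b] (sg W) = aeval ![t, a, b * t ^ 2] W := by
  have : (aeval ![t, a, b] : R3 →ₐ[ℚ] ℂ).comp sg = aeval ![t, a, b * t ^ 2] := by
    apply MvPolynomial.algHom_ext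
    intro i
    fin_cases i <;> simp [sg]
  rw [← this]; rfl

theorem aeval_AA (t a b : ℂ) : aeval ![t, a, b] (AA (X 0 : R3) (X 1) (X 2)) = AA t a b := by
  have := map_AA (aeval ![t, a, b] : R3 →ₐ[ℚ] ℂ).toRingHom (X 0) (X 1) (X 2)
  simpa using this

theorem aeval_BB (t a b : ℂ) (N m : ℕ) :
    aeval ![t, a, b] (BB (X 0 : R3) (X 1) (X 2) N m) = BB t a b N m := by
  have := map_BB (aeval ![t, a, b] : R3 →ₐ[ℚ] ℂ).toRingHom (X 0) (X 1) (X 2) N m
  simpa using this

theorem aeval_AA' (t a b : ℂ) (i : ℕ) :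
    aeval ![t, a, b] (AA (X 0 : R3) (X 1) (X 2 * X 0 ^ i)) = AA t a (b * t ^ i) := by
  have := map_AA (aeval ![t, a, b] : R3 →ₐ[ℚ] ℂ).toRingHom (X 0) (X 1) (X 2 * X 0 ^ i)
  simpa using this

theorem aeval_BB' (t a b : ℂ) (i N m : ℕ) :
    aeval ![t, a, b] (BB (X 0 : R3) (X 1) (X 2 * X 0 ^ i) N m) = BB t a (b * t ^ i) N m := by
  have := map_BB (aeval ![t, a, b] : R3 →ₐ[ℚ] ℂ).toRingHom (X 0) (X 1) (X 2 * X 0 ^ i) N m
  simpa using this

theorem eta3 (x : Fin 3 → ℂ) : x = ![x 0, x 1, x 2] := by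
  funext i; fin_cases i <;> rfl

/-- iterating the recurrence -/
theorem iter (w : ℂ → ℂ) (t a : ℂ) (N m : ℕ)
    (h : ∀ b, AA t a b * w (b * t ^ 2) = BB t a b N m * w b) (b : ℂ) (k : ℕ) :
    (∏ i ∈ range k, AA t a (b * t ^ (2 * i))) * w (b * t ^ (2 * k)) =
      (∏ i ∈ range k, BB t a (b * t ^ (2 * i)) N m) * w b := by
  induction k with
  | zero => simp
  | succ k ih =>
    rw [prod_range_succ, prod_range_succ]
    have h1 := h (b * t ^ (2 * k))
    rw [show b * t ^ (2 * k) * t ^ 2 = b * t ^ (2 * (k + 1)) by ring] at h1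
    linear_combination (∏ i ∈ range k, AA t a (b * t ^ (2 * i))) * h1
      + BB t a (b * t ^ (2 * k)) N m * ih

theorem one_sub_two_root {z : ℂ} {d : ℕ} (hd : 0 < d) (hz : IsPrimitiveRoot z d) (k : ℕ) :
    (1 : ℂ) - 2 * z ^ k ≠ 0 := by
  intro h
  have h1 : 2 * z ^ k = 1 := by linear_combination -h
  have h2 : (2 * z ^ k) ^ d = 1 := by rw [h1, one_pow]
  rw [mul_pow, ← pow_mul, mul_comm k, pow_mul, hz.pow_eq_one, one_pow, mul_one] at h2
  have h3 : ((2 : ℕ) ^ d : ℕ) = 1 := by exact_mod_cast h2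
  have : 1 < 2 ^ d := Nat.one_lt_two_pow hd.ne'
  omega

theorem cyc_dvd {d N m : ℕ} (hd : 1 < d) {W : R3}
    (hrec : cyc d ∣ AA (X 0 : R3) (X 1) (X 2) * sg W - BB (X 0 : R3) (X 1) (X 2) N m * W) :
    cyc d ∣ W := by
  have hd0 : 0 < d := by omega
  let E : R3 := ∏ i ∈ range d, AA (X 0 : R3) (X 1) (X 2 * X 0 ^ (2 * i))
      - ∏ i ∈ range d, BB (X 0 : R3) (X 1) (X 2 * X 0 ^ (2 * i)) N m
  have hEval : ∀ t a b : ℂ, aeval ![t, a, b] E = ∏ i ∈ range d, AA t a (b * t ^ (2 * i))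
      - ∏ i ∈ range d, BB t a (b * t ^ (2 * i)) N m := by
    intro t a b
    simp only [E, map_sub, map_prod, aeval_AA', aeval_BB']
  apply dvd_of_vanish (prime_cyc hd0) (E := E)
  · have hz : IsPrimitiveRoot (Complex.exp (2 * Real.pi * Complex.I / d)) d :=
      Complex.isPrimitiveRoot_exp d hd0.ne'
    generalize Complex.exp (2 * Real.pi * Complex.I / d) = z at hz
    apply not_dvd_of_point ![z, 0, 2]
    · rw [aeval_cyc_eq_zero hd0]; simpa using hz
    · rw [hEval]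
      have h1 : ∏ i ∈ range d, BB z 0 (2 * z ^ (2 * i)) N m = 0 := by
        apply prod_eq_zero (mem_range.2 hd0)
        simp [BB]
      rw [h1, sub_zero, prod_ne_zero_iff]
      intro i _
      have hz0 : z ≠ 0 := hz.ne_zero hd0.ne'
      have hz1 : (1 : ℂ) - z ≠ 0 := sub_ne_zero.2 (hz.ne_one hd).symm
      have hz2 := one_sub_two_root hd0 hz (2 * i + 2)
      have e : AA z 0 (2 * z ^ (2 * i)) = (1 - z) * (-(2 * z ^ (2 * i + 1))) * (1 - 2 * z ^ (2 * i + 2)) := by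
        rw [AA]; ring
      rw [e]
      refine mul_ne_zero (mul_ne_zero hz1 ?_) hz2
      exact neg_ne_zero.2 (mul_ne_zero two_ne_zero (pow_ne_zero _ hz0))
  · intro x hx hE
    rw [eta3 x] at hx hE ⊢
    rw [aeval_cyc_eq_zero hd0] at hx
    have hz : IsPrimitiveRoot (x 0) d := by simpa using hx
    generalize x 0 = z at *
    generalize x 1 = a at *
    generalize x 2 = b at *
    have hw : ∀ b', AA z a b' * aeval ![z, a, b' * z ^ 2] W = BB z a b' N m * aeval ![z, a, b'] W := by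
      intro b'
      obtain ⟨c, hc⟩ := hrec
      have h1 := congrArg (aeval ![z, a, b']) hc
      have h0 : aeval ![z, a, b'] (cyc d) = 0 := by
        rw [aeval_cyc_eq_zero hd0]; simpa using hz
      rw [map_sub, map_mul, map_mul, map_mul, h0, aeval_AA, aeval_BB, aeval_sg, zero_mul] at h1
      exact sub_eq_zero.1 h1
    have h2 := iter (fun b' => aeval ![z, a, b'] W) z a N m hw b d
    have h3 : z ^ (2 * d) = 1 := by rw [mul_comm, pow_mul, hz.pow_eq_one, one_pow]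
    simp only [h3, mul_one] at h2
    rw [hEval] at hE
    have h4 : (∏ i ∈ range d, AA z a (b * z ^ (2 * i))
      - ∏ i ∈ range d, BB z a (b * z ^ (2 * i)) N m) * aeval ![z, a, b] W = 0 := by
      rw [sub_mul, h2, sub_self]
    exact (mul_eq_zero.1 h4).resolve_left hE

/-- the numerator as a polynomial -/
noncomputable def U3 (N : ℕ) : R3 := UU (X 0 : R3) (X 1) (X 2) N (2 * N)

noncomputable def H3 (N : ℕ) : R3 := HH (X 0 : R3) (X 1) (X 2) N (2 * N)

theorem aeval_U3 (t a b : ℂ) (N : ℕ) : aeval ![t, a, b] (U3 N) = UU t a b N (2 * N) := by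
  have := map_UU (aeval ![t, a, b] : R3 →ₐ[ℚ] ℂ).toRingHom (X 0) (X 1) (X 2) N (2 * N)
  simpa [U3] using this

theorem aeval_H3 (t a b : ℂ) (N : ℕ) : aeval ![t, a, b] (H3 N) = HH t a b N (2 * N) := by
  have := map_HH (aeval ![t, a, b] : R3 →ₐ[ℚ] ℂ).toRingHom (X 0) (X 1) (X 2) N (2 * N)
  simpa [H3] using this

theorem sg_U3 (N : ℕ) : sg (U3 N) = UU (X 0 : R3) (X 1) (X 2 * X 0 ^ 2) N (2 * N) := by
  have := map_UU (sg : R3 →ₐ[ℚ] R3).toRingHom (X 0) (X 1) (X 2) N (2 * N)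
  simpa [U3, sg] using this

theorem rec_U3 (N : ℕ) :
    AA (X 0 : R3) (X 1) (X 2) * sg (U3 N) - BB (X 0 : R3) (X 1) (X 2) N (2 * N) * U3 N = H3 N := by
  have h := starU (X 0 : R3) (X 1) (X 2) N (2 * N)
  rw [sg_U3, U3, H3, AA, BB]
  linear_combination h

theorem cyc_dvd_one_sub {d n : ℕ} (hdn : d ∣ n) : cyc d ∣ (1 - X 0 ^ n : R3) := by
  have h1 : Polynomial.cyclotomic d ℚ ∣ Polynomial.X ^ n - 1 :=
    (Polynomial.cyclotomic.dvd_X_pow_sub_one d ℚ).trans (by
      obtain ⟨k, rfl⟩ := hdn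
      rw [pow_mul]
      exact sub_one_dvd_pow_sub_one _ _)
  have h2 := map_dvd (Polynomial.aeval (X 0 : R3)) h1
  rw [map_sub, map_pow, Polynomial.aeval_X, map_one] at h2
  rw [← neg_sub, dvd_neg]
  exact h2

theorem cyc_not_dvd_one_add {d n : ℕ} (hd : 0 < d) (hdn : d ∣ n) : ¬ cyc d ∣ (1 + X 0 ^ n : R3) := by
  have hz : IsPrimitiveRoot (Complex.exp (2 * Real.pi * Complex.I / d)) d :=
      Complex.isPrimitiveRoot_exp d hd.ne'
  generalize Complex.exp (2 * Real.pi * Complex.I / d) = z at hz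
  apply not_dvd_of_point ![z, 0, 0]
  · rw [aeval_cyc_eq_zero hd]; simpa using hz
  · obtain ⟨k, rfl⟩ := hdn
    have : z ^ (d * k) = 1 := by rw [pow_mul, hz.pow_eq_one, one_pow]
    simp [this]

end Pool.Agent.Helper5.QC
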