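import Mathlib
import Pool.Agent.Helper5.QC3

open Finset MvPolynomial

namespace Pool.Agent.Helper5.QC

theorem isRoot_exp {d : ℕ} (hd : 0 < d) : ∃ z : ℂ, IsPrimitiveRoot z d :=
  ⟨_, Complex.isPrimitiveRoot_exp d hd.ne'⟩

theorem cyc_dvd_H3 {N d : ℕ} (hd : 0 < d) (hdn : d ∣ 2 * N + 1) : cyc d ∣ H3 N := by
  have h := HH_eq (X 0 : R3) (X 1) (X 2) N
  have h1 : cyc d ∣ (1 + X 0 ^ (2 * N + 1)) * H3 N := by
    rw [H3, h]
    exact dvd_mul_of_dvd_left (cyc_dvd_one_sub hdn) _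
  exact ((prime_cyc hd).dvd_or_dvd h1).resolve_left (cyc_not_dvd_one_add hd hdn)

theorem cyc_dvd_U3 {N d : ℕ} (hd : 1 < d) (hdn : d ∣ 2 * N + 1) : cyc d ∣ U3 N := by
  apply cyc_dvd hd (N := N) (m := 2 * N)
  rw [rec_U3]
  exact cyc_dvd_H3 (by omega) hdn

theorem cyc_dvd_H2 {N : ℕ} (hN : 0 < N) : cyc (2 * N + 1) ∣ H2 (X 0 : R3) (X 1) (X 2) N := by
  have hn : 0 < 2 * N + 1 := by omega
  apply dvd_of_vanish (prime_cyc hn) (E := 1)
  · exact (prime_cyc hn).not_dvd_one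
  · intro x hx _
    rw [aeval_cyc_eq_zero hn] at hx
    have h1 : aeval x (H2 (X 0 : R3) (X 1) (X 2) N) = H2 (x 0) (x 1) (x 2) N := by
      have hf : ∀ y : R3, aeval x y = (aeval x : R3 →ₐ[ℚ] ℂ).toRingHom y := fun y => rfl
      rw [hf, H2, H2]
      simp only [map_sub, map_mul, map_add, map_one, map_pow, map_DR, map_EE, map_cb, map_PA,
        map_PL, map_DL, map_PS]
      simp
    rw [h1]
    exact H2_root hx hN _ _

theorem cyc_sq_dvd_H3 {N : ℕ} (hN : 0 < N) : cyc (2 * N + 1) ^ 2 ∣ H3 N := by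
  have hn : 0 < 2 * N + 1 := by omega
  have h := HH_eq (X 0 : R3) (X 1) (X 2) N
  have h1 : cyc (2 * N + 1) ^ 2 ∣ (1 + X 0 ^ (2 * N + 1)) * H3 N := by
    rw [H3, h, pow_two]
    exact mul_dvd_mul (cyc_dvd_one_sub dvd_rfl) (cyc_dvd_H2 hN)
  exact (prime_cyc hn).pow_dvd_of_dvd_mul_left 2 (cyc_not_dvd_one_add hn dvd_rfl) h1

theorem cyc_sq_dvd_U3 {N : ℕ} (hN : 0 < N) : cyc (2 * N + 1) ^ 2 ∣ U3 N := by
  have hn : 1 < 2 * N + 1 := by omega
  obtain ⟨U1, hU1⟩ := cyc_dvd_U3 hn (dvd_refl (2 * N + 1))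
  have hsg : sg (cyc (2 * N + 1)) = cyc (2 * N + 1) := by
    rw [cyc, ← Polynomial.aeval_algHom_apply]
    simp [sg]
  obtain ⟨H', hH'⟩ := cyc_sq_dvd_H3 hN
  have hrec := rec_U3 N
  rw [hU1, map_mul, hsg, hH'] at hrec
  have hne := (prime_cyc (show 0 < 2 * N + 1 by omega)).ne_zero
  have h2 : AA (X 0 : R3) (X 1) (X 2) * sg U1 - BB (X 0 : R3) (X 1) (X 2) N (2 * N) * U1
      = cyc (2 * N + 1) * H' := by
    apply mul_left_cancel₀ hne
    linear_combination hrec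
  have h3 : cyc (2 * N + 1) ∣ U1 := by
    apply cyc_dvd hn (N := N) (m := 2 * N)
    rw [h2]; exact dvd_mul_right _ _
  rw [hU1, pow_two]
  exact mul_dvd_mul_left _ h3

/-- vanishing at `b = q^n` -/
theorem b_dvd_U3 {N : ℕ} : (X 2 - X 0 ^ (2 * N + 1) : R3) ∣ U3 N := by
  let E : R3 := ∏ i ∈ range N, AA (X 0 : R3) (X 1) (X 0 ^ (2 * i + 1))
  have hEval : ∀ t a b : ℂ, aeval ![t, a, b] E = ∏ i ∈ range N, AA t a (t ^ (2 * i + 1)) := by
    intro t a b
    simp only [E, map_prod]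
    apply prod_congr rfl
    intro i _
    have := map_AA (aeval ![t, a, b] : R3 →ₐ[ℚ] ℂ).toRingHom (X 0) (X 1) (X 0 ^ (2 * i + 1))
    simpa using this
  apply dvd_of_vanish (prime_b _) (E := E)
  · apply not_dvd_of_point ![2, 0, 2 ^ (2 * N + 1)]
    · simp
    · rw [hEval, prod_ne_zero_iff]
      intro i _
      have e : AA (2 : ℂ) 0 (2 ^ (2 * i + 1)) = (-1) * (-(2 ^ (2 * i + 2))) * (1 - 2 ^ (2 * i + 3)) := by
        rw [AA]; ring
      rw [e]
      refine mul_ne_zero (mul_ne_zero (by norm_num) (neg_ne_zero.2 (pow_ne_zero _ two_ne_zero))) ?_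
      intro h
      have h1 : (2 : ℂ) ^ (2 * i + 3) = 1 := by linear_combination -h
      have h3 : ((2 : ℕ) ^ (2 * i + 3) : ℕ) = 1 := by exact_mod_cast h1
      have : 1 < 2 ^ (2 * i + 3) := Nat.one_lt_two_pow (by omega)
      omega
  · intro x hx hE
    rw [eta3 x] at hx hE ⊢
    rw [hEval, prod_ne_zero_iff] at hE
    simp at hx
    rw [aeval_U3]
    generalize x 0 = t at *
    generalize x 1 = a at *
    have key : ∀ i ≤ N, UU t a (t ^ (2 * i + 1)) N (2 * N) = 0 := by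
      intro i
      induction i with
      | zero => intro _; simpa using UU_at_q t a N (2 * N)
      | succ i ih =>
        intro hi
        have h1 := ih (by omega)
        have h2 := starU t a (t ^ (2 * i + 1)) N (2 * N)
        rw [h1, HH_at_pow t a N i (by omega), mul_zero, zero_add] at h2
        have h3 := hE i (mem_range.2 (by omega))
        rw [AA] at h3
        rw [show t ^ (2 * i + 1) * t ^ 2 = t ^ (2 * (i + 1) + 1) by ring] at h2 h3
        exact (mul_eq_zero.1 h2).resolve_left h3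
    have h4 := key N le_rfl
    have h5 : x 2 = t ^ (2 * N + 1) := by linear_combination hx
    rw [h5]; exact h4

theorem nat_one_sub_pow_ne {t : ℕ} (ht : 2 ≤ t) {k : ℕ} (hk : 0 < k) : (1 : ℂ) - (t : ℂ) ^ k ≠ 0 := by
  intro h
  have h1 : (t : ℂ) ^ k = 1 := by linear_combination -h
  have h3 : t ^ k = 1 := by exact_mod_cast h1
  have : 1 < t ^ k := Nat.one_lt_pow hk.ne' (by omega)
  omega

theorem UU_a_nat {N : ℕ} (hN : 0 < N) {t : ℕ} (ht : 2 ≤ t) (i : ℕ) :
    UU (t : ℂ) ((t : ℂ) ^ (2 * N + 1)) ((t : ℂ) ^ (2 * i + 1)) N (2 * N) = 0 := by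
  induction i with
  | zero => simpa using UU_at_q (t : ℂ) ((t : ℂ) ^ (2 * N + 1)) N (2 * N)
  | succ i ih =>
    have h2 := starU (t : ℂ) ((t : ℂ) ^ (2 * N + 1)) ((t : ℂ) ^ (2 * i + 1)) N (2 * N)
    rw [ih, HH_at_a _ _ N hN, mul_zero, zero_add] at h2
    rw [show (t : ℂ) ^ (2 * i + 1) * (t : ℂ) ^ 2 = (t : ℂ) ^ (2 * (i + 1) + 1) by ring] at h2
    refine (mul_eq_zero.1 h2).resolve_left ?_
    refine mul_ne_zero (mul_ne_zero (mul_ne_zero ?_ ?_) ?_) ?_
    · simpa using nat_one_sub_pow_ne ht (k := 1) one_pos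
    · rw [← pow_add, ← pow_succ]
      exact nat_one_sub_pow_ne ht (by omega)
    · rw [← pow_succ]
      intro h
      have h1 : (t : ℂ) ^ (2 * N + 1) = (t : ℂ) ^ (2 * i + 1 + 1) := by linear_combination h
      have h3 : t ^ (2 * N + 1) = t ^ (2 * i + 1 + 1) := by exact_mod_cast h1
      have h4 := Nat.pow_right_injective ht h3
      omega
    · exact nat_one_sub_pow_ne ht (by omega)

theorem UU_a_nat' {N : ℕ} (hN : 0 < N) {t : ℕ} (ht : 2 ≤ t) (b : ℂ) :
    UU (t : ℂ) ((t : ℂ) ^ (2 * N + 1)) b N (2 * N) = 0 := by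
  let P : Polynomial ℂ := UU (Polynomial.C (t : ℂ)) (Polynomial.C ((t : ℂ) ^ (2 * N + 1))) Polynomial.X N (2 * N)
  have hP : ∀ c : ℂ, P.eval c = UU (t : ℂ) ((t : ℂ) ^ (2 * N + 1)) c N (2 * N) := by
    intro c
    have := map_UU (Polynomial.evalRingHom c) (Polynomial.C (t : ℂ)) (Polynomial.C ((t : ℂ) ^ (2 * N + 1))) Polynomial.X N (2 * N)
    simpa [P] using this
  have h0 : P = 0 := by
    apply Polynomial.eq_zero_of_infinite_isRoot
    apply Set.infinite_of_injective_forall_mem (f := fun i : ℕ => (t : ℂ) ^ (2 * i + 1))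
    · intro i j hij
      have h1 : (t : ℂ) ^ (2 * i + 1) = (t : ℂ) ^ (2 * j + 1) := hij
      have h3 : t ^ (2 * i + 1) = t ^ (2 * j + 1) := by exact_mod_cast h1
      have h4 := Nat.pow_right_injective ht h3
      omega
    · intro i
      rw [Set.mem_ofPred_eq, Polynomial.IsRoot.def, hP]
      exact UU_a_nat hN ht i
  rw [← hP, h0, Polynomial.eval_zero]

theorem UU_a {N : ℕ} (hN : 0 < N) (t b : ℂ) : UU t (t ^ (2 * N + 1)) b N (2 * N) = 0 := by
  let P : Polynomial ℂ := UU Polynomial.X (Polynomial.X ^ (2 * N + 1)) (Polynomial.C b) N (2 * N)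
  have hP : ∀ c : ℂ, P.eval c = UU c (c ^ (2 * N + 1)) b N (2 * N) := by
    intro c
    have := map_UU (Polynomial.evalRingHom c) Polynomial.X (Polynomial.X ^ (2 * N + 1)) (Polynomial.C b) N (2 * N)
    simpa [P] using this
  have h0 : P = 0 := by
    apply Polynomial.eq_zero_of_infinite_isRoot
    apply Set.infinite_of_injective_forall_mem (f := fun i : ℕ => ((i + 2 : ℕ) : ℂ))
    · intro i j hij
      have h1 : ((i + 2 : ℕ) : ℂ) = ((j + 2 : ℕ) : ℂ) := hij
      have h3 : i + 2 = j + 2 := by exact_mod_cast h1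
      omega
    · intro i
      rw [Set.mem_ofPred_eq, Polynomial.IsRoot.def, hP]
      exact UU_a_nat' hN (by omega) b
  rw [← hP, h0, Polynomial.eval_zero]

section symm
variable {F : Type*} [Field F]

theorem PA_symm (q : F) {a : F} (ha : a ≠ 0) (J : ℕ) : PA q a⁻¹ J * a ^ (2 * J) = PA q a J := by
  induction J with
  | zero => simp [PA]
  | succ J ih =>
    rw [PA_succ, PA_succ, ← ih]
    field_simp
    ring

theorem DL_symm (q : F) {a : F} (ha : a ≠ 0) (J : ℕ) : DL q a⁻¹ J * a ^ (2 * J) = DL q a J := by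
  induction J with
  | zero => simp [DL]
  | succ J ih =>
    rw [DL_succ, DL_succ, ← ih]
    field_simp
    ring

theorem DR_symm (q : F) {a : F} (ha : a ≠ 0) (J : ℕ) : DR q a⁻¹ J * a ^ (2 * J) = DR q a J := by
  induction J with
  | zero => simp [DR]
  | succ J ih =>
    rw [DR_succ, DR_succ, ← ih]
    field_simp
    ring

theorem NL_symm (q b : F) {a : F} (ha : a ≠ 0) (J : ℕ) : NL q a⁻¹ b J * a ^ (2 * J) = NL q a b J := by
  induction J with
  | zero => simp [NL]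
  | succ J ih =>
    rw [NL, NL, ← ih, ← PA_symm q ha (J + 1)]
    field_simp
    ring

theorem NR_symm (q b : F) {a : F} (ha : a ≠ 0) (J : ℕ) : NR q a⁻¹ b J * a ^ (2 * J) = NR q a b J := by
  induction J with
  | zero => simp [NR]
  | succ J ih =>
    rw [NR, NR, ← ih, ← PA_symm q ha (J + 1)]
    field_simp
    ring

theorem UU_symm (q b : F) {a : F} (ha : a ≠ 0) (N m : ℕ) :
    UU q a⁻¹ b N m * a ^ (2 * N + 2 * m) = UU q a b N m := by
  rw [UU, UU, ← DL_symm q ha, ← DR_symm q ha, ← NL_symm q b ha, ← NR_symm q b ha, pow_add]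
  ring

end symm

theorem a_dvd_U3 {N : ℕ} (hN : 0 < N) : (X 1 - X 0 ^ (2 * N + 1) : R3) ∣ U3 N := by
  apply dvd_of_vanish (prime_a _) (E := 1)
  · exact (prime_a _).not_dvd_one
  · intro x hx _
    rw [eta3 x] at hx ⊢
    simp at hx
    rw [aeval_U3]
    have h5 : x 1 = x 0 ^ (2 * N + 1) := by linear_combination hx
    rw [h5]
    exact UU_a hN _ _

theorem a'_dvd_U3 {N : ℕ} (hN : 0 < N) : (1 - X 1 * X 0 ^ (2 * N + 1) : R3) ∣ U3 N := by
  apply dvd_of_vanish (prime_a' _) (E := 1)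
  · exact (prime_a' _).not_dvd_one
  · intro x hx _
    rw [eta3 x] at hx ⊢
    simp at hx
    rw [aeval_U3]
    have h5 : x 1 * x 0 ^ (2 * N + 1) = 1 := by linear_combination -hx
    have ha : x 0 ^ (2 * N + 1) ≠ 0 := right_ne_zero_of_mul_eq_one h5
    have h6 : x 1 = (x 0 ^ (2 * N + 1))⁻¹ := eq_inv_of_mul_eq_one_left h5
    have h7 := UU_symm (x 0) (x 2) ha N (2 * N)
    rw [UU_a hN] at h7
    rw [h6]
    exact (mul_eq_zero.1 h7).resolve_right (pow_ne_zero _ ha)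

end Pool.Agent.Helper5.QC
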