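import Mathlib

open Finset

namespace Pool.Agent.Helper5.QCDefs

/-- The ring `ℚ[q, a, b]`; the variables `0, 1, 2` are `q, a, b`. -/
abbrev R := MvPolynomial (Fin 3) ℚ

/-- The field `ℚ(q, a, b)`. -/
abbrev K := FractionRing R

/-- The indeterminates as elements of `ℚ(q, a, b)`. -/
noncomputable def q : K := algebraMap R K (MvPolynomial.X 0)
noncomputable def a : K := algebraMap R K (MvPolynomial.X 1)
noncomputable def b : K := algebraMap R K (MvPolynomial.X 2)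

section
variable {F : Type*} [Field F]

/-- The shifted factorial `(x; p)_j = (1 - x)(1 - x p) ... (1 - x p^(j-1))`. -/
def qPoch (x p : F) (j : ℕ) : F := ∏ i ∈ range j, (1 - x * p ^ i)

/-- `[m] = (1 - q^m) / (1 - q)`. -/
def qInt (q : F) (m : ℕ) : F := (1 - q ^ m) / (1 - q)

/-- The sum `L_n`. -/
def sumL (q a b : F) (n : ℕ) : F :=
  ∑ j ∈ range ((n - 1) / 2 + 1), b ^ j * qInt q (4 * j + 1) *
    ((qPoch q (q ^ 2) j * qPoch (a * q) (q ^ 2) j * qPoch (q / a) (q ^ 2) j *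
        qPoch (q / b) (q ^ 2) j) /
      (qPoch (q ^ 2) (q ^ 2) j * qPoch (a * q ^ 2) (q ^ 2) j * qPoch (q ^ 2 / a) (q ^ 2) j *
        qPoch (b * q ^ 2) (q ^ 2) j))

/-- The sum `R_n`. -/
def sumR (q a b : F) (n : ℕ) : F :=
  ∑ j ∈ range n, b ^ j * (q ^ (j * (j + 1) / 2))⁻¹ * qInt q (3 * j + 1) *
    ((qPoch q (q ^ 2) j * qPoch (a * q) (q ^ 2) j * qPoch (q / a) (q ^ 2) j *
        qPoch (q / b) q j) /
      (qPoch q q j * qPoch (a * q) q j * qPoch (q / a) q j * qPoch (b * q ^ 2) (q ^ 2) j))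

end

/-- The modulus `M_n = [n] Φ_n(q) (1 - a q^n) (a - q^n) (b - q^n)`. -/
noncomputable def modulus (n : ℕ) : R :=
  (∑ i ∈ range n, (MvPolynomial.X 0 : R) ^ i) *
    Polynomial.aeval (MvPolynomial.X 0 : R) (Polynomial.cyclotomic n ℚ) *
    (1 - MvPolynomial.X 1 * MvPolynomial.X 0 ^ n) *
    (MvPolynomial.X 1 - MvPolynomial.X 0 ^ n) * (MvPolynomial.X 2 - MvPolynomial.X 0 ^ n)

/-- `A ≡ B (mod P)`: `A - B = P C / D` with polynomials `C, D`, and `D` coprime to `P`. -/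
def Cong (A B : K) (P : R) : Prop :=
  ∃ C D : R, D ≠ 0 ∧ IsRelPrime D P ∧ A - B = algebraMap R K (P * C) / algebraMap R K D

end Pool.Agent.Helper5.QCDefs
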