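import Mathlib
import Pool.Agent.Helper5.QC4
import Pool.Agent.Helper5.QCDefs

open Finset

namespace Pool.Agent.Helper5.QC5

open Pool.Agent.Helper5.QC Pool.Agent.Helper5.QCDefs

section aux
variable {F : Type*} [Field F] {q a b : F}

theorem qPoch_succ (x p : F) (j : ℕ) : qPoch x p (j + 1) = qPoch x p j * (1 - x * p ^ j) := by
  rw [qPoch, prod_range_succ, ← qPoch]

theorem split_aux (c b P1 P2 P3 P4 Q1 Q2 Q3 Q4 x1 x2 x3 x4 y1 y2 y3 y4 : F) :
    c * b * (P1 * x1 * (P2 * x2) * (P3 * x3) * (P4 * x4) /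
      (Q1 * y1 * (Q2 * y2) * (Q3 * y3) * (Q4 * y4))) =
    c * (P1 * P2 * P3 * P4 / (Q1 * Q2 * Q3 * Q4)) * (x1 * x2 * x3 * (b * x4) / (y1 * y2 * y3 * y4)) := by
  simp only [div_eq_mul_inv, mul_inv]; ring

theorem termL_eq (ha : a ≠ 0) (hb : b ≠ 0)
    (h1 : ∀ k : ℕ, 1 - q ^ (k + 1) ≠ 0) (h2 : ∀ k : ℕ, 1 + q ^ (k + 1) ≠ 0)
    (h3 : ∀ k : ℕ, 1 - a * q ^ (k + 1) ≠ 0) (h4 : ∀ k : ℕ, a - q ^ (k + 1) ≠ 0)
    (h5 : ∀ k : ℕ, 1 - b * q ^ (k + 1) ≠ 0) (j : ℕ) :
    b ^ j * ((qPoch q (q ^ 2) j * qPoch (a * q) (q ^ 2) j * qPoch (q / a) (q ^ 2) j *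
        qPoch (q / b) (q ^ 2) j) /
      (qPoch (q ^ 2) (q ^ 2) j * qPoch (a * q ^ 2) (q ^ 2) j * qPoch (q ^ 2 / a) (q ^ 2) j *
        qPoch (b * q ^ 2) (q ^ 2) j)) * (DL q a j * EE q b j) =
      cb q j * PA q a j * PL q b j := by
  induction j with
  | zero => simp [qPoch, DL, EE, cb_zero, PA, PL]
  | succ j ih =>
    have hcb := cb_succ q j
    rw [DL_succ, EE_succ, PA_succ, PL_succ]
    simp only [qPoch_succ]
    have e1 : q * (q ^ 2) ^ j = q ^ (2 * j + 1) := by ring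
    have e2 : a * q * (q ^ 2) ^ j = a * q ^ (2 * j + 1) := by ring
    have e3 : q / a * (q ^ 2) ^ j = q ^ (2 * j + 1) / a := by ring
    have e4 : q / b * (q ^ 2) ^ j = q ^ (2 * j + 1) / b := by ring
    have e5 : q ^ 2 * (q ^ 2) ^ j = q ^ (2 * j + 2) := by ring
    have e6 : a * q ^ 2 * (q ^ 2) ^ j = a * q ^ (2 * j + 2) := by ring
    have e7 : q ^ 2 / a * (q ^ 2) ^ j = q ^ (2 * j + 2) / a := by ring
    have e8 : b * q ^ 2 * (q ^ 2) ^ j = b * q ^ (2 * j + 2) := by ring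
    rw [e1, e2, e3, e4, e5, e6, e7, e8]
    have f1 := h1 j
    have f2 := h2 j
    have f3 := h3 (2 * j + 1)
    have f4 := h4 (2 * j + 1)
    have f5 := h5 (2 * j + 1)
    rw [show 2 * j + 1 + 1 = 2 * j + 2 by ring] at f3 f4 f5
    have f6 : 1 - q ^ (2 * j + 2) ≠ 0 := h1 (2 * j + 1)
    have f7 : 1 - q ^ (2 * j + 2) / a ≠ 0 := by
      rw [one_sub_div ha]; exact div_ne_zero f4 ha
    have f8 : q ^ (2 * j + 2) = q ^ (j + 1) * q ^ (j + 1) := by ring
    have hcb' : cb q (j + 1) = cb q j * (1 - q ^ (2 * j + 1)) * (1 + q ^ (j + 1)) / (1 - q ^ (j + 1)) := by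
      rw [eq_div_iff f1]; exact hcb
    rw [hcb']
    generalize qPoch q (q ^ 2) j = P1 at *
    generalize qPoch (a * q) (q ^ 2) j = P2 at *
    generalize qPoch (q / a) (q ^ 2) j = P3 at *
    generalize qPoch (q / b) (q ^ 2) j = P4 at *
    generalize qPoch (q ^ 2) (q ^ 2) j = Q1 at *
    generalize qPoch (a * q ^ 2) (q ^ 2) j = Q2 at *
    generalize qPoch (q ^ 2 / a) (q ^ 2) j = Q3 at *
    generalize qPoch (b * q ^ 2) (q ^ 2) j = Q4 at *
    generalize q ^ (2 * j + 1) = x at *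
    have g1 : b * (1 - x / b) = b - x := by field_simp
    have g2 : a - q ^ (2 * j + 2) = a * (1 - q ^ (2 * j + 2) / a) := by field_simp
    have g3 : a - x = a * (1 - x / a) := by field_simp
    have g4 : (1 - q ^ (2 * j + 2)) = (1 - q ^ (j + 1)) * (1 + q ^ (j + 1)) := by rw [f8]; ring
    have key : b ^ (j + 1) * (P1 * (1 - x) * (P2 * (1 - a * x)) * (P3 * (1 - x / a)) * (P4 * (1 - x / b)) /
        (Q1 * (1 - q ^ (2 * j + 2)) * (Q2 * (1 - a * q ^ (2 * j + 2))) * (Q3 * (1 - q ^ (2 * j + 2) / a)) *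
          (Q4 * (1 - b * q ^ (2 * j + 2))))) =
        (b ^ j * (P1 * P2 * P3 * P4 / (Q1 * Q2 * Q3 * Q4))) * ((1 - x) * (1 - a * x) * (1 - x / a) * (b * (1 - x / b)) /
          ((1 - q ^ (2 * j + 2)) * (1 - a * q ^ (2 * j + 2)) * (1 - q ^ (2 * j + 2) / a) *
          (1 - b * q ^ (2 * j + 2)))) := by
      rw [pow_succ]
      exact split_aux _ _ _ _ _ _ _ _ _ _ _ _ _ _ _ _ _ _
    rw [key, g1, g3]
    have ih' : b ^ j * (P1 * P2 * P3 * P4 / (Q1 * Q2 * Q3 * Q4)) * (DL q a j * EE q b j) = cb q j * PA q a j * PL q b j := ih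
    calc _ = (b ^ j * (P1 * P2 * P3 * P4 / (Q1 * Q2 * Q3 * Q4)) * (DL q a j * EE q b j)) *
        (((1 - x) * (1 - a * x) * (1 - x / a) * (b - x) /
          ((1 - q ^ (2 * j + 2)) * (1 - a * q ^ (2 * j + 2)) * (1 - q ^ (2 * j + 2) / a) *
          (1 - b * q ^ (2 * j + 2)))) *
          ((1 + q ^ (j + 1)) ^ 2 * (1 - a * q ^ (2 * j + 2)) * (a - q ^ (2 * j + 2)) * (1 - b * q ^ (2 * j + 2)))) := by ring
      _ = (cb q j * PA q a j * PL q b j) * ((1 - x) * (1 - a * x) * (a * (1 - x / a)) * (b - x) * (1 + q ^ (j + 1)) / (1 - q ^ (j + 1))) := by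
        rw [ih']
        congr 1
        rw [g2, g4]
        generalize 1 - q ^ (2 * j + 2) / a = u at *
        generalize 1 - a * q ^ (2 * j + 2) = v at *
        generalize 1 - b * q ^ (2 * j + 2) = w at *
        generalize 1 - q ^ (j + 1) = s at *
        generalize 1 + q ^ (j + 1) = r at *
        field_simp
      _ = _ := by ring

theorem tri_succ (j : ℕ) : (j + 1) * (j + 1 + 1) / 2 = j * (j + 1) / 2 + (j + 1) := by
  rw [show (j + 1) * (j + 1 + 1) = j * (j + 1) + 2 * (j + 1) by ring,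
    Nat.add_mul_div_left _ _ (by norm_num)]

theorem termR_eq (hq : q ≠ 0) (ha : a ≠ 0) (hb : b ≠ 0)
    (h1 : ∀ k : ℕ, 1 - q ^ (k + 1) ≠ 0)
    (h3 : ∀ k : ℕ, 1 - a * q ^ (k + 1) ≠ 0) (h4 : ∀ k : ℕ, a - q ^ (k + 1) ≠ 0)
    (h5 : ∀ k : ℕ, 1 - b * q ^ (k + 1) ≠ 0) (j : ℕ) :
    b ^ j * (q ^ (j * (j + 1) / 2))⁻¹ * ((qPoch q (q ^ 2) j * qPoch (a * q) (q ^ 2) j *
        qPoch (q / a) (q ^ 2) j * qPoch (q / b) q j) /
      (qPoch q q j * qPoch (a * q) q j * qPoch (q / a) q j *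
        qPoch (b * q ^ 2) (q ^ 2) j)) * (DR q a j * EE q b j) =
      cb q j * PA q a j * PR q b j := by
  induction j with
  | zero => simp [qPoch, DR, EE, cb_zero, PA, PR]
  | succ j ih =>
    have hcb := cb_succ q j
    rw [DR_succ, EE_succ, PA_succ, PR_succ, tri_succ]
    simp only [qPoch_succ]
    have e1 : q * (q ^ 2) ^ j = q ^ (2 * j + 1) := by ring
    have e2 : a * q * (q ^ 2) ^ j = a * q ^ (2 * j + 1) := by ring
    have e3 : q / a * (q ^ 2) ^ j = q ^ (2 * j + 1) / a := by ring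
    have e4 : q / b * q ^ j = q ^ (j + 1) / b := by ring
    have e5 : q * q ^ j = q ^ (j + 1) := by ring
    have e6 : a * q * q ^ j = a * q ^ (j + 1) := by ring
    have e7 : q / a * q ^ j = q ^ (j + 1) / a := by ring
    have e8 : b * q ^ 2 * (q ^ 2) ^ j = b * q ^ (2 * j + 2) := by ring
    rw [e1, e2, e3, e4, e5, e6, e7, e8]
    have f1 := h1 j
    have f3 := h3 j
    have f4 := h4 j
    have f5 := h5 (2 * j + 1)
    rw [show 2 * j + 1 + 1 = 2 * j + 2 by ring] at f5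
    have f7 : 1 - q ^ (j + 1) / a ≠ 0 := by
      rw [one_sub_div ha]; exact div_ne_zero f4 ha
    have f9 : q ^ (j + 1) ≠ 0 := pow_ne_zero _ hq
    have hcb' : cb q (j + 1) = cb q j * (1 - q ^ (2 * j + 1)) * (1 + q ^ (j + 1)) / (1 - q ^ (j + 1)) := by
      rw [eq_div_iff f1]; exact hcb
    rw [hcb', pow_add q (j * (j + 1) / 2) (j + 1), mul_inv]
    generalize q ^ (j * (j + 1) / 2) = qt at *
    generalize qPoch q (q ^ 2) j = P1 at *
    generalize qPoch (a * q) (q ^ 2) j = P2 at *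
    generalize qPoch (q / a) (q ^ 2) j = P3 at *
    generalize qPoch (q / b) q j = P4 at *
    generalize qPoch q q j = Q1 at *
    generalize qPoch (a * q) q j = Q2 at *
    generalize qPoch (q / a) q j = Q3 at *
    generalize qPoch (b * q ^ 2) (q ^ 2) j = Q4 at *
    generalize q ^ (2 * j + 1) = x at *
    generalize q ^ (j + 1) = y at *
    have g1 : b * (1 - y / b) = b - y := by field_simp
    have g2 : a - y = a * (1 - y / a) := by field_simp
    have g3 : a - x = a * (1 - x / a) := by field_simp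
    have key : b ^ (j + 1) * (qt⁻¹ * y⁻¹) * (P1 * (1 - x) * (P2 * (1 - a * x)) * (P3 * (1 - x / a)) *
        (P4 * (1 - y / b)) /
        (Q1 * (1 - y) * (Q2 * (1 - a * y)) * (Q3 * (1 - y / a)) *
          (Q4 * (1 - b * q ^ (2 * j + 2))))) =
        (b ^ j * qt⁻¹ * (P1 * P2 * P3 * P4 / (Q1 * Q2 * Q3 * Q4))) *
        (y⁻¹ * ((1 - x) * (1 - a * x) * (1 - x / a) * (b * (1 - y / b)) /
          ((1 - y) * (1 - a * y) * (1 - y / a) * (1 - b * q ^ (2 * j + 2))))) := by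
      have := split_aux (b ^ j) b P1 P2 P3 P4 Q1 Q2 Q3 Q4 (1 - x) (1 - a * x) (1 - x / a) (1 - y / b)
        (1 - y) (1 - a * y) (1 - y / a) (1 - b * q ^ (2 * j + 2))
      rw [pow_succ]
      calc _ = (qt⁻¹ * y⁻¹) * (b ^ j * b * (P1 * (1 - x) * (P2 * (1 - a * x)) * (P3 * (1 - x / a)) *
        (P4 * (1 - y / b)) /
        (Q1 * (1 - y) * (Q2 * (1 - a * y)) * (Q3 * (1 - y / a)) *
          (Q4 * (1 - b * q ^ (2 * j + 2)))))) := by ring
        _ = _ := by rw [this]; ring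
    rw [key, g1, g3]
    calc _ = (b ^ j * qt⁻¹ * (P1 * P2 * P3 * P4 / (Q1 * Q2 * Q3 * Q4)) * (DR q a j * EE q b j)) *
        ((y⁻¹ * ((1 - x) * (1 - a * x) * (1 - x / a) * (b - y) /
          ((1 - y) * (1 - a * y) * (1 - y / a) * (1 - b * q ^ (2 * j + 2))))) *
          ((1 + y) * (1 - a * y) * (a - y) * y * (1 - b * q ^ (2 * j + 2)))) := by ring
      _ = (cb q j * PA q a j * PR q b j) * ((1 - x) * (1 - a * x) * (a * (1 - x / a)) * (b - y) * (1 + y) / (1 - y)) := by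
        rw [ih]
        congr 1
        rw [g2]
        generalize 1 - y / a = u at *
        generalize 1 - a * y = v at *
        generalize 1 - b * q ^ (2 * j + 2) = w at *
        generalize 1 - y = s at *
        generalize 1 + y = r at *
        field_simp
      _ = _ := by ring

theorem sumL_eq (ha : a ≠ 0) (hb : b ≠ 0)
    (h1 : ∀ k : ℕ, 1 - q ^ (k + 1) ≠ 0) (h2 : ∀ k : ℕ, 1 + q ^ (k + 1) ≠ 0)
    (h3 : ∀ k : ℕ, 1 - a * q ^ (k + 1) ≠ 0) (h4 : ∀ k : ℕ, a - q ^ (k + 1) ≠ 0)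
    (h5 : ∀ k : ℕ, 1 - b * q ^ (k + 1) ≠ 0) (N : ℕ) :
    (∑ j ∈ range (N + 1), b ^ j * qInt q (4 * j + 1) *
    ((qPoch q (q ^ 2) j * qPoch (a * q) (q ^ 2) j * qPoch (q / a) (q ^ 2) j *
        qPoch (q / b) (q ^ 2) j) /
      (qPoch (q ^ 2) (q ^ 2) j * qPoch (a * q ^ 2) (q ^ 2) j * qPoch (q ^ 2 / a) (q ^ 2) j *
        qPoch (b * q ^ 2) (q ^ 2) j))) * (DL q a N * EE q b N) = NL q a b N := by
  have hq1 : (1 : F) - q ≠ 0 := by simpa using h1 0
  have hg : ∀ m, qInt q m = gs q m := by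
    intro m
    rw [qInt, div_eq_iff hq1, mul_comm, gs_mul]
  induction N with
  | zero => simp [qPoch, DL, EE, NL, hg, gs]
  | succ N ih =>
    rw [sum_range_succ, add_mul, NL]
    have ht := termL_eq ha hb h1 h2 h3 h4 h5 (N + 1)
    congr 1
    · rw [DL_succ, EE_succ, ← ih]; ring
    · rw [hg, show 4 * (N + 1) + 1 = 4 * N + 5 by ring]
      linear_combination gs q (4 * N + 5) * ht

theorem sumR_eq (hq : q ≠ 0) (ha : a ≠ 0) (hb : b ≠ 0)
    (h1 : ∀ k : ℕ, 1 - q ^ (k + 1) ≠ 0)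
    (h3 : ∀ k : ℕ, 1 - a * q ^ (k + 1) ≠ 0) (h4 : ∀ k : ℕ, a - q ^ (k + 1) ≠ 0)
    (h5 : ∀ k : ℕ, 1 - b * q ^ (k + 1) ≠ 0) (N : ℕ) :
    (∑ j ∈ range (N + 1), b ^ j * (q ^ (j * (j + 1) / 2))⁻¹ * qInt q (3 * j + 1) *
    ((qPoch q (q ^ 2) j * qPoch (a * q) (q ^ 2) j * qPoch (q / a) (q ^ 2) j *
        qPoch (q / b) q j) /
      (qPoch q q j * qPoch (a * q) q j * qPoch (q / a) q j * qPoch (b * q ^ 2) (q ^ 2) j))) *
      (DR q a N * EE q b N) = NR q a b N := by
  have hq1 : (1 : F) - q ≠ 0 := by simpa using h1 0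
  have hg : ∀ m, qInt q m = gs q m := by
    intro m
    rw [qInt, div_eq_iff hq1, mul_comm, gs_mul]
  induction N with
  | zero => simp [qPoch, DR, EE, NR, hg, gs]
  | succ N ih =>
    rw [sum_range_succ, add_mul, NR]
    have ht := termR_eq hq ha hb h1 h3 h4 h5 (N + 1)
    congr 1
    · rw [DR_succ, EE_succ, ← ih]; ring
    · rw [hg, show 3 * (N + 1) + 1 = 3 * N + 4 by ring]
      linear_combination gs q (3 * N + 4) * ht

end aux

section final

open MvPolynomial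

theorem ne_zero_of_point {p : R} (x : Fin 3 → ℂ) (h : aeval x p ≠ 0) : p ≠ 0 := by
  rintro rfl; simp at h

/-- the common denominator -/
noncomputable def den (N : ℕ) : R :=
  (DL (X 0 : R) (X 1) N * EE (X 0 : R) (X 2) N) *
    (DR (X 0 : R) (X 1) (2 * N) * EE (X 0 : R) (X 2) (2 * N))

theorem aeval_den (t a b : ℂ) (N : ℕ) : aeval ![t, a, b] (den N) =
    (DL t a N * EE t b N) * (DR t a (2 * N) * EE t b (2 * N)) := by
  have hf : ∀ y : R, aeval ![t, a, b] y = (aeval ![t, a, b] : R →ₐ[ℚ] ℂ).toRingHom y := fun y => rfl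
  rw [hf, den]
  simp only [map_mul, map_DR, map_EE, map_DL]
  simp

theorem den_ne (t a b : ℂ) (N : ℕ) (ht : t ≠ 0) (h1 : ∀ k < 2 * N, 1 + t ^ (k + 1) ≠ 0)
    (h2 : ∀ k < 2 * N, 1 - a * t ^ (k + 1) ≠ 0) (h3 : ∀ k < 2 * N, a - t ^ (k + 1) ≠ 0)
    (h4 : ∀ k, 1 - b * t ^ (k + 1) ≠ 0) : aeval ![t, a, b] (den N) ≠ 0 := by
  rw [aeval_den]
  refine mul_ne_zero (mul_ne_zero ?_ ?_) (mul_ne_zero ?_ ?_)
  · rw [DL, prod_ne_zero_iff]
    intro i hi
    have hi' := mem_range.1 hi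
    exact mul_ne_zero (mul_ne_zero (pow_ne_zero _ (h1 i (by omega))) (h2 (2 * i + 1) (by omega)))
      (h3 (2 * i + 1) (by omega))
  · rw [EE, prod_ne_zero_iff]
    intro i _
    exact h4 (2 * i + 1)
  · rw [DR, prod_ne_zero_iff]
    intro i hi
    have hi' := mem_range.1 hi
    exact mul_ne_zero (mul_ne_zero (mul_ne_zero (h1 i hi') (h2 i hi')) (h3 i hi'))
      (pow_ne_zero _ ht)
  · rw [EE, prod_ne_zero_iff]
    intro i _
    exact h4 (2 * i + 1)

theorem two_pow_ne {k : ℕ} (hk : 0 < k) : (1 : ℂ) - 2 ^ k ≠ 0 := by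
  have := nat_one_sub_pow_ne (t := 2) le_rfl hk
  simpa using this

theorem one_add_two_pow_ne (k : ℕ) : (1 : ℂ) + 2 ^ k ≠ 0 := by
  have h : ((1 + 2 ^ k : ℕ) : ℂ) ≠ 0 := by
    rw [Nat.cast_ne_zero]; positivity
  simpa using h

theorem two_pow_sub_ne {k l : ℕ} (h : k ≠ l) : (2 : ℂ) ^ k - 2 ^ l ≠ 0 := by
  intro h0
  have h1 : (2 : ℂ) ^ k = 2 ^ l := by linear_combination h0
  have h3 : 2 ^ k = 2 ^ l := by exact_mod_cast h1
  exact h (Nat.pow_right_injective le_rfl h3)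

theorem cyc_not_dvd_den {N d : ℕ} (hd : 0 < d) (hdn : d ∣ 2 * N + 1) : ¬ cyc d ∣ den N := by
  obtain ⟨z, hz⟩ := isRoot_exp hd
  apply not_dvd_of_point ![z, 2, 2]
  · rw [aeval_cyc_eq_zero hd]; simpa using hz
  · have hodd : Odd d := by
      rcases Nat.even_or_odd d with h | h
      · exfalso
        have h2 : 2 ∣ 2 * N + 1 := (even_iff_two_dvd.1 h).trans hdn
        omega
      · exact h
    have key : ∀ k : ℕ, (z ^ k) ^ d = 1 := by
      intro k
      rw [← pow_mul, mul_comm, pow_mul, hz.pow_eq_one, one_pow]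
    apply den_ne
    · exact hz.ne_zero hd.ne'
    · intro k _ h
      have h1 : z ^ (k + 1) = -1 := by linear_combination h
      have h2 := key (k + 1)
      rw [h1, hodd.neg_one_pow] at h2
      norm_num at h2
    · intro k _
      exact one_sub_two_root hd hz (k + 1)
    · intro k _ h
      have h1 : z ^ (k + 1) = 2 := by linear_combination -h
      have h2 := key (k + 1)
      rw [h1] at h2
      have := two_pow_ne hd
      rw [h2] at this
      simp at this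
    · intro k
      exact one_sub_two_root hd hz (k + 1)

theorem b_not_dvd_den (N : ℕ) : ¬ (X 2 - X 0 ^ (2 * N + 1) : R) ∣ den N := by
  apply not_dvd_of_point ![2, 0, 2 ^ (2 * N + 1)]
  · simp
  · apply den_ne
    · exact two_ne_zero
    · intro k _; exact one_add_two_pow_ne _
    · intro k _; simp
    · intro k _; simp
    · intro k; rw [← pow_add]; exact two_pow_ne (by omega)

theorem a_not_dvd_den (N : ℕ) : ¬ (X 1 - X 0 ^ (2 * N + 1) : R) ∣ den N := by
  apply not_dvd_of_point ![2, 2 ^ (2 * N + 1), 0]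
  · simp
  · apply den_ne
    · exact two_ne_zero
    · intro k _; exact one_add_two_pow_ne _
    · intro k _; rw [← pow_add]; exact two_pow_ne (by omega)
    · intro k hk; exact two_pow_sub_ne (by omega)
    · intro k; simp

theorem a'_not_dvd_den (N : ℕ) : ¬ (1 - X 1 * X 0 ^ (2 * N + 1) : R) ∣ den N := by
  have h2 : (2 : ℂ) ^ (2 * N + 1) ≠ 0 := pow_ne_zero _ two_ne_zero
  apply not_dvd_of_point ![2, (2 ^ (2 * N + 1))⁻¹, 0]
  · simp
  · apply den_ne
    · exact two_ne_zero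
    · intro k _; exact one_add_two_pow_ne _
    · intro k hk h
      have h1 : (2 : ℂ) ^ (2 * N + 1) - 2 ^ (k + 1) = 0 := by
        have : (2 : ℂ) ^ (2 * N + 1) * (1 - (2 ^ (2 * N + 1))⁻¹ * 2 ^ (k + 1)) = 0 := by
          rw [h, mul_zero]
        field_simp at this
        linear_combination this
      exact two_pow_sub_ne (by omega) h1
    · intro k _ h
      have h1 : (1 : ℂ) - 2 ^ (2 * N + 1 + (k + 1)) = 0 := by
        have : (2 : ℂ) ^ (2 * N + 1) * ((2 ^ (2 * N + 1))⁻¹ - 2 ^ (k + 1)) = 0 := by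
          rw [h, mul_zero]
        rw [mul_sub, mul_inv_cancel₀ h2, ← pow_add] at this
        exact this
      exact two_pow_ne (by omega) h1
    · intro k; simp

theorem cyc_two_ne {d : ℕ} (hd : 0 < d) (a b : ℂ) : aeval ![2, a, b] (cyc d) ≠ 0 := by
  intro h
  rw [aeval_cyc_eq_zero hd] at h
  have h1 : (2 : ℂ) ^ d = 1 := by simpa using h.pow_eq_one
  have := two_pow_ne hd
  rw [h1] at this
  simp at this

theorem isRelPrime_of_not_dvd {p m : R} (hp : Prime p) (h : ¬ p ∣ m) : IsRelPrime m p :=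
  ((Irreducible.isRelPrime_iff_not_dvd hp.irreducible).2 h).symm

theorem cyc_isRelPrime {d e : ℕ} (h : d ≠ e) : IsRelPrime (cyc d) (cyc e) :=
  ((Polynomial.cyclotomic.isCoprime_rat h).map (Polynomial.aeval (X 0 : R)).toRingHom).isRelPrime

theorem geom_eq {n : ℕ} (hn : 0 < n) :
    (∑ i ∈ range n, (X 0 : R) ^ i) = ∏ d ∈ n.divisors.erase 1, cyc d := by
  have h := congrArg (Polynomial.aeval (X 0 : R)) (Polynomial.prod_cyclotomic_eq_geom_sum hn ℚ)
  rw [map_prod, map_sum] at h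
  simp only [map_pow, Polynomial.aeval_X] at h
  exact h.symm

theorem modulus_eq (n : ℕ) (hn : 1 < n) : modulus n =
    (cyc n ^ 2 * ∏ d ∈ (n.divisors.erase 1).erase n, cyc d) *
    (1 - X 1 * X 0 ^ n) * (X 1 - X 0 ^ n) * (X 2 - X 0 ^ n) := by
  have hmem : n ∈ n.divisors.erase 1 := by
    rw [mem_erase, Nat.mem_divisors]
    exact ⟨hn.ne', dvd_rfl, by omega⟩
  rw [modulus, geom_eq (by omega), ← mul_prod_erase _ _ hmem]
  change (cyc n * _) * cyc n * _ * _ * _ = _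
  ring

theorem modulus_dvd {N : ℕ} (hN : 0 < N) : modulus (2 * N + 1) ∣ U3 N := by
  have hn : 1 < 2 * N + 1 := by omega
  rw [modulus_eq _ hn]
  have hg : ∏ d ∈ ((2 * N + 1).divisors.erase 1).erase (2 * N + 1), cyc d ∣ U3 N := by
    apply Finset.prod_dvd_of_isRelPrime
    · intro d _ e _ hde
      exact cyc_isRelPrime hde
    · intro d hd
      rw [mem_erase, mem_erase, Nat.mem_divisors] at hd
      have hd0 : 0 < d := Nat.pos_of_dvd_of_pos hd.2.2.1 (by omega)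
      exact cyc_dvd_U3 (by omega) hd.2.2.1
  have hr : IsRelPrime (cyc (2 * N + 1) ^ 2)
      (∏ d ∈ ((2 * N + 1).divisors.erase 1).erase (2 * N + 1), cyc d) := by
    apply IsRelPrime.pow_left
    apply IsRelPrime.prod_right
    intro d hd
    rw [mem_erase] at hd
    exact cyc_isRelPrime hd.1.symm
  have h2 : ∀ a b : ℂ, aeval ![2, a, b] (cyc (2 * N + 1) ^ 2 *
      ∏ d ∈ ((2 * N + 1).divisors.erase 1).erase (2 * N + 1), cyc d) ≠ 0 := by
    intro a b
    rw [map_mul, map_pow, map_prod]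
    refine mul_ne_zero (pow_ne_zero _ (cyc_two_ne (by omega) a b)) ?_
    rw [prod_ne_zero_iff]
    intro d hd
    rw [mem_erase, mem_erase, Nat.mem_divisors] at hd
    exact cyc_two_ne (Nat.pos_of_dvd_of_pos hd.2.2.1 (by omega)) a b
  have hne : (2 : ℂ) ^ (2 * N + 1) ≠ 0 := pow_ne_zero _ two_ne_zero
  refine IsRelPrime.mul_dvd ?_ (IsRelPrime.mul_dvd ?_ (IsRelPrime.mul_dvd ?_
    (IsRelPrime.mul_dvd hr (cyc_sq_dvd_U3 hN) hg) (a'_dvd_U3 hN)) (a_dvd_U3 hN)) b_dvd_U3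
  · apply isRelPrime_of_not_dvd (prime_b _)
    apply not_dvd_of_point ![2, 0, 2 ^ (2 * N + 1)]
    · simp
    · rw [map_mul, map_mul]
      refine mul_ne_zero (mul_ne_zero (h2 _ _) ?_) ?_
      · simp
      · simp
  · apply isRelPrime_of_not_dvd (prime_a _)
    apply not_dvd_of_point ![2, 2 ^ (2 * N + 1), 0]
    · simp
    · rw [map_mul]
      refine mul_ne_zero (h2 _ _) ?_
      have := two_pow_ne (k := (2 * N + 1) + (2 * N + 1)) (by omega)
      rw [pow_add] at this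
      simpa using this
  · apply isRelPrime_of_not_dvd (prime_a' _)
    apply not_dvd_of_point ![2, (2 ^ (2 * N + 1))⁻¹, 0]
    · simp
    · exact h2 _ _

theorem den_isRelPrime {N : ℕ} (hN : 0 < N) : IsRelPrime (den N) (modulus (2 * N + 1)) := by
  rw [modulus_eq _ (by omega)]
  refine IsRelPrime.mul_right (IsRelPrime.mul_right (IsRelPrime.mul_right (IsRelPrime.mul_right ?_ ?_) ?_) ?_) ?_
  · exact IsRelPrime.pow_right (isRelPrime_of_not_dvd (prime_cyc (by omega)) (cyc_not_dvd_den (by omega) dvd_rfl))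
  · apply IsRelPrime.prod_right
    intro d hd
    rw [mem_erase, mem_erase, Nat.mem_divisors] at hd
    have hd0 : 0 < d := Nat.pos_of_dvd_of_pos hd.2.2.1 (by omega)
    exact isRelPrime_of_not_dvd (prime_cyc hd0) (cyc_not_dvd_den hd0 hd.2.2.1)
  · exact isRelPrime_of_not_dvd (prime_a' _) (a'_not_dvd_den N)
  · exact isRelPrime_of_not_dvd (prime_a _) (a_not_dvd_den N)
  · exact isRelPrime_of_not_dvd (prime_b _) (b_not_dvd_den N)

theorem den_ne_zero (N : ℕ) : den N ≠ 0 := by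
  apply ne_zero_of_point ![2, 0, 2 ^ (2 * N + 1)]
  apply den_ne
  · exact two_ne_zero
  · intro k _; exact one_add_two_pow_ne _
  · intro k _; simp
  · intro k _; simp
  · intro k; rw [← pow_add]; exact two_pow_ne (by omega)

theorem algebraMap_ne {p : R} (h : p ≠ 0) : algebraMap R K p ≠ 0 := by
  intro h0
  exact h ((IsFractionRing.injective R K) (by rw [h0, map_zero]))

theorem sum_sub_eq (N : ℕ) :
    sumL q a b (2 * N + 1) - sumR q a b (2 * N + 1) =
      algebraMap R K (U3 N) / algebraMap R K (den N) := by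
  have hq : q ≠ 0 := algebraMap_ne (X_ne_zero 0)
  have ha : a ≠ 0 := algebraMap_ne (X_ne_zero 1)
  have hb : b ≠ 0 := algebraMap_ne (X_ne_zero 2)
  have h1 : ∀ k : ℕ, 1 - q ^ (k + 1) ≠ 0 := by
    intro k
    have : (1 - X 0 ^ (k + 1) : R) ≠ 0 := by
      apply ne_zero_of_point ![2, 0, 0]
      simpa using two_pow_ne (k := k + 1) (by omega)
    have := algebraMap_ne this
    simpa [q] using this
  have h2 : ∀ k : ℕ, 1 + q ^ (k + 1) ≠ 0 := by
    intro k
    have : (1 + X 0 ^ (k + 1) : R) ≠ 0 := by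
      apply ne_zero_of_point ![2, 0, 0]
      simpa using one_add_two_pow_ne (k + 1)
    have := algebraMap_ne this
    simpa [q] using this
  have h3 : ∀ k : ℕ, 1 - a * q ^ (k + 1) ≠ 0 := by
    intro k
    have : (1 - X 1 * X 0 ^ (k + 1) : R) ≠ 0 := by
      apply ne_zero_of_point ![2, 0, 0]
      simp
    have := algebraMap_ne this
    simpa [q, a] using this
  have h4 : ∀ k : ℕ, a - q ^ (k + 1) ≠ 0 := by
    intro k
    have : (X 1 - X 0 ^ (k + 1) : R) ≠ 0 := by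
      apply ne_zero_of_point ![2, 0, 0]
      simp
    have := algebraMap_ne this
    simpa [q, a] using this
  have h5 : ∀ k : ℕ, 1 - b * q ^ (k + 1) ≠ 0 := by
    intro k
    have : (1 - X 2 * X 0 ^ (k + 1) : R) ≠ 0 := by
      apply ne_zero_of_point ![2, 0, 0]
      simp
    have := algebraMap_ne this
    simpa [q, b] using this
  have hL := sumL_eq ha hb h1 h2 h3 h4 h5 N
  have hR := sumR_eq hq ha hb h1 h3 h4 h5 (2 * N)
  have hden : algebraMap R K (den N) = (DL q a N * EE q b N) * (DR q a (2 * N) * EE q b (2 * N)) := by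
    rw [den]
    simp only [map_mul, map_DL, map_EE, map_DR]
    rfl
  have hU : algebraMap R K (U3 N) = UU q a b N (2 * N) := by
    rw [U3, map_UU]; rfl
  rw [eq_div_iff (algebraMap_ne (den_ne_zero N)), hden, hU, UU]
  have e1 : (2 * N + 1 - 1) / 2 + 1 = N + 1 := by omega
  rw [sumL, sumR, e1]
  rw [← hL, ← hR]
  ring

/-- **Main theorem.** For every odd `n`, `L_n ≡ R_n (mod M_n)`. -/
theorem main (n : ℕ) (hn : Odd n) : Cong (sumL q a b n) (sumR q a b n) (modulus n) := by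
  obtain ⟨N, rfl⟩ := hn
  rcases Nat.eq_zero_or_pos N with rfl | hN
  · refine ⟨0, 1, one_ne_zero, isRelPrime_one_left, ?_⟩
    have hq1 : (1 : K) - q ≠ 0 := by
      have : (1 - X 0 ^ 1 : R) ≠ 0 := by
        apply ne_zero_of_point ![2, 0, 0]
        simpa using two_pow_ne (k := 1) (by omega)
      have := algebraMap_ne this
      simpa [q] using this
    simp [sumL, sumR, qPoch, qInt, hq1]
  · obtain ⟨C, hC⟩ := modulus_dvd hN
    refine ⟨C, den N, den_ne_zero N, den_isRelPrime hN, ?_⟩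
    rw [sum_sub_eq, hC]

end final

end Pool.Agent.Helper5.QC5
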